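import Pool.Agent.Lib.MP_cd3201_co.Strong.Thresh

/-!
# Clusters of pairs

`j p q y` is a label of the triple `p, q, y`, symmetric in `p` and `q`. For every `q` the points
`p ≠ q` are divided into at most `k` classes `cl q p`, such that for `p`, `p'` in the same class the
labels of `p, q, y` and `p', q, y` are different for at most `b` points `y`. Then there is a large
set of pairs with almost the same labels.
-/

set_option autoImplicit false

open Finset

namespace Pool.Agent.Lib.MP_cd3201_co.Strong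

variable {α : Type*} [DecidableEq α]

/-- A large cluster. -/
theorem cluster {ι : Type*} [DecidableEq ι] (P : Finset α) (j : α → α → α → ℕ)
    (hj : ∀ p q y, j p q y = j q p y) (cl : α → α → ι) (b : ℕ)
    (hx : ∀ p ∈ P, ∀ p' ∈ P, ∀ q ∈ P, p ≠ q → p' ≠ q → cl q p = cl q p' →
      (P.filter fun y => j p q y ≠ j p' q y).card ≤ b)
    (k : ℕ) (hk : ∀ q ∈ P, ((P.erase q).image (cl q)).card ≤ k)
    (hk0 : 0 < k) (L : ℕ) (hL : 0 < L) (hLk : 2 * (k * L) + 1 ≤ P.card) :
    ∃ a₀ ∈ P.offDiag, ∃ G ⊆ P.offDiag, L ^ 2 ≤ G.card ∧ ∀ a ∈ G,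
      (P.filter fun y => j a.1 a.2 y ≠ j a₀.1 a₀.2 y).card ≤ 2 * b := by
  classical
  -- the class of `p` with respect to `q`
  let cls : α → α → Finset α := fun q p =>
    (P.erase q).filter fun p' => cl q p' = cl q p
  let small : α → Finset α := fun q => (P.erase q).filter fun p => (cls q p).card < L
  have hsmall : ∀ q ∈ P, (small q).card ≤ k * L := by
    intro q hq
    have h1 : (small q).card ≤ L * ((small q).image (cl q)).card := by
      apply card_le_mul_card_image
      intro v hv
      obtain ⟨p, hp, hpv⟩ := mem_image.1 hv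
      have hp' : (cls q p).card < L := (mem_filter.1 hp).2
      refine le_trans (card_le_card ?_) hp'.le
      intro p' hp'
      rw [mem_filter] at hp'
      simp only [cls]
      rw [mem_filter]
      exact ⟨(mem_filter.1 hp'.1).1, hp'.2.trans hpv.symm⟩
    have h2 : ((small q).image (cl q)).card ≤ k :=
      (card_le_card (image_subset_image (filter_subset _ _))).trans (hk q hq)
    calc (small q).card ≤ L * ((small q).image (cl q)).card := h1
      _ ≤ L * k := Nat.mul_le_mul_left _ h2
      _ = k * L := mul_comm _ _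
  -- average over `q`
  have hP : P.Nonempty := by
    rw [← card_pos]
    omega
  have hsum : ∑ q ∈ P, (P.filter fun p => q ∈ small p).card ≤ ∑ _q ∈ P, k * L := by
    have h1 : ∑ q ∈ P, (P.filter fun p => q ∈ small p).card =
        ∑ p ∈ P, (P.filter fun q => q ∈ small p).card := by
      simp only [card_filter]
      exact sum_comm
    rw [h1]
    apply sum_le_sum
    intro p hp
    refine le_trans (card_le_card ?_) (hsmall p hp)
    intro q hq
    exact (mem_filter.1 hq).2
  obtain ⟨q₀, hq₀, hq₀'⟩ := exists_le_of_sum_le hP hsum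
  -- the good `p`
  obtain ⟨good, hgood⟩ : ∃ g, g = (P.erase q₀).filter fun p => q₀ ∉ small p := ⟨_, rfl⟩
  have hgc : k * L ≤ good.card := by
    have h1 : (P.erase q₀).card ≤ good.card + (P.filter fun p => q₀ ∈ small p).card := by
      rw [← card_filter_add_card_filter_not (s := P.erase q₀) (fun p => q₀ ∉ small p), ← hgood]
      apply Nat.add_le_add_left
      apply card_le_card
      intro p hp
      rw [mem_filter] at hp ⊢
      exact ⟨mem_of_mem_erase hp.1, not_not.1 hp.2⟩
    rw [card_erase_of_mem hq₀] at h1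
    omega
  have hne : ((P.erase q₀).image (cl q₀)).Nonempty := by
    have : (P.erase q₀).Nonempty := by
      rw [← card_pos, card_erase_of_mem hq₀]
      have : 0 < k * L := Nat.mul_pos hk0 hL
      omega
    exact this.image _
  obtain ⟨v, -, hv⟩ := exists_le_card_fiber_of_mul_le_card_of_maps_to
    (s := good) (t := (P.erase q₀).image (cl q₀)) (f := cl q₀) (n := L)
    (fun p hp => mem_image_of_mem _ (by rw [hgood] at hp; exact (mem_filter.1 hp).1)) hne
    (le_trans (Nat.mul_le_mul_right _ (hk q₀ hq₀)) hgc)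
  obtain ⟨F, hF⟩ : ∃ F, F = good.filter fun p => cl q₀ p = v := ⟨_, rfl⟩
  rw [← hF] at hv
  have hFne : F.Nonempty := by
    rw [← card_pos]
    omega
  obtain ⟨p₀, hp₀⟩ := hFne
  have hFm : ∀ p ∈ F, p ∈ P ∧ p ≠ q₀ ∧ L ≤ (cls p q₀).card ∧ cl q₀ p = v := by
    intro p hp
    rw [hF, mem_filter, hgood, mem_filter, mem_erase] at hp
    refine ⟨hp.1.1.2, hp.1.1.1, ?_, hp.2⟩
    by_contra hlt
    push Not at hlt
    apply hp.1.2
    simp only [small]
    rw [mem_filter, mem_erase]
    exact ⟨⟨hp.1.1.1.symm, hq₀⟩, hlt⟩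
  refine ⟨(p₀, q₀), ?_, F.biUnion fun p => (cls p q₀).image fun q => (p, q), ?_, ?_, ?_⟩
  · rw [mem_offDiag]
    exact ⟨(hFm p₀ hp₀).1, hq₀, (hFm p₀ hp₀).2.1⟩
  · intro a ha
    rw [mem_biUnion] at ha
    obtain ⟨p, hp, ha⟩ := ha
    obtain ⟨q, hq, rfl⟩ := mem_image.1 ha
    have h1 := (mem_filter.1 hq).1
    rw [mem_erase] at h1
    rw [mem_offDiag]
    exact ⟨(hFm p hp).1, h1.2, h1.1.symm⟩
  · rw [card_biUnion]
    · have h1 : ∀ p ∈ F, L ≤ ((cls p q₀).image fun q => (p, q)).card := by
        intro p hp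
        rw [card_image_of_injective _ (fun q q' h => (Prod.mk.inj h).2)]
        exact (hFm p hp).2.2.1
      calc L ^ 2 = L * L := sq L
        _ ≤ F.card * L := Nat.mul_le_mul_right _ hv
        _ = ∑ _p ∈ F, L := by rw [sum_const, smul_eq_mul]
        _ ≤ _ := sum_le_sum h1
    · intro p _ p' _ hpp
      rw [Function.onFun, disjoint_left]
      intro a ha ha'
      obtain ⟨q, -, rfl⟩ := mem_image.1 ha
      obtain ⟨q', -, h'⟩ := mem_image.1 ha'
      exact hpp (Prod.mk.inj h').1.symm
  · intro a ha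
    rw [mem_biUnion] at ha
    obtain ⟨p, hp, ha⟩ := ha
    obtain ⟨q, hq, rfl⟩ := mem_image.1 ha
    rw [mem_filter, mem_erase] at hq
    obtain ⟨hpP, hpq, -, hpv⟩ := hFm p hp
    obtain ⟨hpP₀, hpq₀, -, hpv₀⟩ := hFm p₀ hp₀
    have h1 := hx q hq.1.2 q₀ hq₀ p hpP hq.1.1 hpq.symm hq.2
    have h2 := hx p hpP p₀ hpP₀ q₀ hq₀ hpq hpq₀ (hpv.trans hpv₀.symm)
    have h3 : (P.filter fun y => j p q y ≠ j p₀ q₀ y) ⊆
        (P.filter fun y => j q p y ≠ j q₀ p y) ∪ (P.filter fun y => j p q₀ y ≠ j p₀ q₀ y) := by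
      intro y hy
      rw [mem_filter] at hy
      rw [mem_union, mem_filter, mem_filter]
      by_contra hno
      push Not at hno
      apply hy.2
      rw [hj p q y, hno.1 hy.1, hj q₀ p y, hno.2 hy.1]
    have h4 := (card_le_card h3).trans (card_union_le _ _)
    exact h4.trans (by omega)

/-- **Counting in a cluster.** -/
theorem count (P : Finset α) (j : α → α → α → ℕ) (v : α → α → α → ℝ) (b W K : ℕ)
    (a₀ : α × α) (G : Finset (α × α))
    (hG : ∀ a ∈ G, (P.filter fun y => j a.1 a.2 y ≠ j a₀.1 a₀.2 y).card ≤ 2 * b)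
    (hW : ∀ y ∈ P, ∀ S ⊆ G, (∀ a ∈ S, j a.1 a.2 y = j a₀.1 a₀.2 y) →
      (S.image fun a => v a.1 a.2 y).card ≤ W)
    (hK : ∀ a ∈ G, ∀ a' ∈ G, a ≠ a' → a' ≠ (a.2, a.1) →
      (P.filter fun y => v a.1 a.2 y = v a'.1 a'.2 y).card ≤ K) :
    G.card * P.card ≤ 4 * (G.card * b) + 2 * (P.card * W) + G.card ^ 2 * K := by
  classical
  -- the pairs of the cluster with the label of `a₀` at `y`
  let S : α → Finset (α × α) := fun y => G.filter fun a => j a.1 a.2 y = j a₀.1 a₀.2 y
  have h1 : G.card * P.card ≤ ∑ y ∈ P, (S y).card + 2 * (G.card * b) := by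
    have e1 : ∑ y ∈ P, (S y).card = ∑ a ∈ G, (P.filter fun y => j a.1 a.2 y = j a₀.1 a₀.2 y).card := by
      simp only [S, card_filter]
      exact sum_comm
    have e2 : ∀ a ∈ G, P.card ≤
        (P.filter fun y => j a.1 a.2 y = j a₀.1 a₀.2 y).card + 2 * b := by
      intro a ha
      rw [← card_filter_add_card_filter_not (s := P) (fun y => j a.1 a.2 y = j a₀.1 a₀.2 y)]
      exact Nat.add_le_add_left (hG a ha) _
    have e3 := sum_le_sum e2
    rw [sum_const, smul_eq_mul, sum_add_distrib, sum_const, smul_eq_mul, ← e1] at e3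
    calc G.card * P.card ≤ ∑ y ∈ P, (S y).card + G.card * (2 * b) := e3
      _ = _ := by ring
  have h2 : ∀ y ∈ P, 2 * (S y).card ≤
      2 * W + (G.offDiag.filter fun c => v c.1.1 c.1.2 y = v c.2.1 c.2.2 y).card := by
    intro y hy
    have e1 := coinc (S y) (fun a => v a.1 a.2 y)
    have e2 := hW y hy (S y) (filter_subset _ _) (fun a ha => (mem_filter.1 ha).2)
    have e3 : ((S y).offDiag.filter fun c => v c.1.1 c.1.2 y = v c.2.1 c.2.2 y).card ≤
        (G.offDiag.filter fun c => v c.1.1 c.1.2 y = v c.2.1 c.2.2 y).card :=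
      card_le_card (filter_subset_filter _ (offDiag_mono (filter_subset _ _)))
    omega
  have h3 := sum_le_sum h2
  rw [← mul_sum, sum_add_distrib, sum_const, smul_eq_mul] at h3
  have h4 : ∑ y ∈ P, (G.offDiag.filter fun c => v c.1.1 c.1.2 y = v c.2.1 c.2.2 y).card ≤
      G.card * P.card + G.card ^ 2 * K := by
    have e1 : ∑ y ∈ P, (G.offDiag.filter fun c => v c.1.1 c.1.2 y = v c.2.1 c.2.2 y).card =
        ∑ c ∈ G.offDiag, (P.filter fun y => v c.1.1 c.1.2 y = v c.2.1 c.2.2 y).card := by
      simp only [card_filter]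
      exact sum_comm
    rw [e1]
    have e2 : ∀ c ∈ G.offDiag, (P.filter fun y => v c.1.1 c.1.2 y = v c.2.1 c.2.2 y).card ≤
        (if c.2 = (c.1.2, c.1.1) then P.card else 0) + K := by
      intro c hc
      rw [mem_offDiag] at hc
      split_ifs with hs
      · exact (card_filter_le _ _).trans (Nat.le_add_right _ _)
      · rw [zero_add]
        exact hK c.1 hc.1 c.2 hc.2.1 hc.2.2 hs
    refine (sum_le_sum e2).trans ?_
    rw [sum_add_distrib, sum_const, smul_eq_mul, offDiag_card]
    apply Nat.add_le_add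
    · rw [← sum_filter, sum_const, smul_eq_mul]
      apply Nat.mul_le_mul_right
      apply card_le_card_of_injOn (fun c => c.1)
      · intro c hc
        have := (mem_filter.1 hc).1
        rw [mem_offDiag] at this
        exact this.1
      · intro c hc c' hc' h
        have g1 := (mem_filter.1 hc).2
        have g2 := (mem_filter.1 hc').2
        have h' : c.1 = c'.1 := h
        apply Prod.ext h'
        rw [g1, g2, h']
    · apply Nat.mul_le_mul_right
      rw [sq]
      exact Nat.sub_le _ _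
  have h5 : 2 * (G.card * P.card) ≤ 2 * ∑ y ∈ P, (S y).card + 4 * (G.card * b) := by omega
  have h6 : P.card * (2 * W) = 2 * (P.card * W) := by ring
  rw [h6] at h3
  omega

end Pool.Agent.Lib.MP_cd3201_co.Strong
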