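import Pool.Agent.Lib.MP_cd3201_co.Strong.Geo
import Pool.Agent.Lib.MP_cd3201_co.Strong.Cluster

/-!
# The combinatorial bound
-/

set_option autoImplicit false

open Finset

namespace Pool.Agent.Lib.MP_cd3201_co.Strong

/-! ### radii -/

lemma gp_not_collinear {P : Finset Plane} (hP : GeneralPosition P) {p q x : Plane} (hp : p ∈ P)
    (hq : q ∈ P) (hx : x ∈ P) (hpq : p ≠ q) (hpx : p ≠ x) (hqx : q ≠ x) :
    ({p, q, x} : Finset Plane) ⊆ P ∧ ({p, q, x} : Finset Plane).card = 3 ∧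
      ¬ Collinear ℝ ({p, q, x} : Set Plane) := by
  have h1 : ({p, q, x} : Finset Plane) ⊆ P := by
    intro y hy
    simp only [mem_insert, mem_singleton] at hy
    rcases hy with rfl | rfl | rfl
    · exact hp
    · exact hq
    · exact hx
  have h2 : ({p, q, x} : Finset Plane).card = 3 := card_eq_three.2 ⟨p, q, x, hpq, hpx, hqx, rfl⟩
  refine ⟨h1, h2, ?_⟩
  intro h
  apply hP.1 _ h1 h2
  simpa using h

lemma gp_dt {P : Finset Plane} (hP : GeneralPosition P) {p q x : Plane} (hp : p ∈ P)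
    (hq : q ∈ P) (hx : x ∈ P) (hpq : p ≠ q) (hpx : p ≠ x) (hqx : q ≠ x) : dt p q x ≠ 0 :=
  dt_ne_zero (gp_not_collinear hP hp hq hx hpq hpx hqx).2.2

lemma sq_of_circum {p q x : Plane} {r : ℝ} (hdt : dt p q x ≠ 0)
    (h : IsCircumradius {p, q, x} r) : r ^ 2 = rho p q x := by
  have h1 := circum h
  unfold rho
  rw [eq_div_iff (by positivity), ← h1]
  ring

lemma gp_radius {P : Finset Plane} (hP : GeneralPosition P) {p q x : Plane} (hp : p ∈ P)
    (hq : q ∈ P) (hx : x ∈ P) (hpq : p ≠ q) (hpx : p ≠ x) (hqx : q ≠ x) :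
    ∃ r ∈ radii P, IsCircumradius {p, q, x} r ∧ r ^ 2 = rho p q x := by
  obtain ⟨h1, h2, -⟩ := gp_not_collinear hP hp hq hx hpq hpx hqx
  obtain ⟨r, hr⟩ := exists_circumradius h2 (hP.1 _ h1 h2)
  exact ⟨r, ⟨_, h1, h2, hr⟩, hr, sq_of_circum (gp_dt hP hp hq hx hpq hpx hqx) hr⟩

open Classical in
/-- The values of `rho` on the triples of `P`. -/
noncomputable def vals (P : Finset Plane) : Finset ℝ :=
  ((P ×ˢ P ×ˢ P).filter fun c => c.1 ≠ c.2.1 ∧ c.1 ≠ c.2.2 ∧ c.2.1 ≠ c.2.2).image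
    fun c => rho c.1 c.2.1 c.2.2

lemma mem_vals {P : Finset Plane} {v : ℝ} : v ∈ vals P ↔ ∃ p ∈ P, ∃ q ∈ P, ∃ x ∈ P,
    p ≠ q ∧ p ≠ x ∧ q ≠ x ∧ rho p q x = v := by
  unfold vals
  simp only [mem_image, mem_filter, mem_product, Prod.exists]
  constructor
  · rintro ⟨p, q, x, ⟨⟨hp, hq, hx⟩, h1, h2, h3⟩, h4⟩
    exact ⟨p, hp, q, hq, x, hx, h1, h2, h3, h4⟩
  · rintro ⟨p, hp, q, hq, x, hx, h1, h2, h3, h4⟩
    exact ⟨p, q, x, ⟨⟨hp, hq, hx⟩, h1, h2, h3⟩, h4⟩

lemma card_vals {P : Finset Plane} (hP : GeneralPosition P) :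
    (vals P).card ≤ (radii P).ncard := by
  have h1 : (vals P : Set ℝ) ⊆ (fun r : ℝ => r ^ 2) '' radii P := by
    intro v hv
    rw [mem_coe, mem_vals] at hv
    obtain ⟨p, hp, q, hq, x, hx, h1, h2, h3, rfl⟩ := hv
    obtain ⟨r, hr, -, hr'⟩ := gp_radius hP hp hq hx h1 h2 h3
    exact ⟨r, hr, hr'⟩
  rw [← Set.ncard_coe_finset]
  exact (Set.ncard_le_ncard h1 ((radii_finite P).image _)).trans
    (Set.ncard_image_le (radii_finite P))

lemma vals_pos {P : Finset Plane} (hP : GeneralPosition P) {v : ℝ} (hv : v ∈ vals P) : 0 < v := by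
  obtain ⟨p, hp, q, hq, x, hx, h1, h2, h3, rfl⟩ := mem_vals.1 hv
  have h4 := gp_dt hP hp hq hx h1 h2 h3
  unfold rho pr
  have e1 := nn_pos h1
  have e2 := nn_pos h3
  have e3 := nn_pos h2.symm
  positivity

lemma pr_degenerate {p q x : Plane} (h : p = q ∨ p = x ∨ q = x) : pr p q x = 0 := by
  unfold pr
  rcases h with rfl | rfl | rfl
  · rw [nn_self]; ring
  · rw [nn_self]; ring
  · rw [nn_self]; ring

lemma rho_degenerate {p q x : Plane} (h : p = q ∨ p = x ∨ q = x) : rho p q x = 0 := by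
  unfold rho
  rw [pr_degenerate h, zero_div]

/-! ### levels -/

/-- The label of a triple. -/
noncomputable def lab (Θ : Finset ℝ) (p q x : Plane) : ℕ := (Θ.filter (· < rho p q x)).card

lemma lab_swap (Θ : Finset ℝ) (p q x : Plane) : lab Θ p q x = lab Θ q p x := by
  unfold lab
  rw [rho_swap]

lemma lt_rho_iff {P : Finset Plane} (hP : GeneralPosition P) {p q x : Plane} (hp : p ∈ P)
    (hq : q ∈ P) (hx : x ∈ P) {τ : ℝ} (hτ : 0 < τ) : τ < rho p q x ↔ Rl q (x, τ) p := by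
  unfold Rl
  simp only [abs_of_pos hτ]
  by_cases h : p = q ∨ p = x ∨ q = x
  · rw [rho_degenerate h]
    unfold Cd
    rw [pr_degenerate h]
    constructor
    · intro h1
      linarith
    · intro h1
      have : 0 ≤ 4 * τ * dt p q x ^ 2 := by positivity
      linarith
  · push Not at h
    exact cd_iff (gp_dt hP hp hq hx h.1 h.2.1 h.2.2)

open Classical in
/-- The number of ranges which separate two points. -/
noncomputable def sep (P : Finset Plane) (Θ : Finset ℝ) (q p p' : Plane) : ℕ :=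
  ((P ×ˢ Θ).filter fun u => ¬ (Rl q u p ↔ Rl q u p')).card

lemma sep_comm (P : Finset Plane) (Θ : Finset ℝ) (q p p' : Plane) :
    sep P Θ q p p' = sep P Θ q p' p := by
  classical
  unfold sep
  congr 1
  apply filter_congr
  intro u _
  exact not_congr iff_comm

lemma sep_triangle (P : Finset Plane) (Θ : Finset ℝ) (q p p' p'' : Plane) :
    sep P Θ q p p'' ≤ sep P Θ q p p' + sep P Θ q p' p'' := by
  classical
  unfold sep
  refine le_trans (card_le_card ?_) (card_union_le _ _)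
  intro u hu
  rw [mem_filter] at hu
  rw [mem_union, mem_filter, mem_filter]
  by_contra hno
  push Not at hno
  exact hu.2 ((not_not.1 fun h => (hno.1 hu.1) |> fun h' => h h').trans
    (not_not.1 fun h => (hno.2 hu.1) |> fun h' => h h'))

open Classical in
lemma lab_sep {P : Finset Plane} (hP : GeneralPosition P) {Θ : Finset ℝ}
    (hΘ : ∀ τ ∈ Θ, 0 < τ) {q p p' : Plane} (hq : q ∈ P) (hp : p ∈ P) (hp' : p' ∈ P) :
    (P.filter fun y => lab Θ p q y ≠ lab Θ p' q y).card ≤ sep P Θ q p p' := by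
  unfold sep
  refine le_trans (card_le_card ?_) (card_image_le (f := Prod.fst))
  intro y hy
  rw [mem_filter] at hy
  obtain ⟨hy, hne⟩ := hy
  by_contra hno
  apply hne
  unfold lab
  congr 1
  apply filter_congr
  intro τ hτ
  rw [lt_rho_iff hP hp hq hy (hΘ τ hτ), lt_rho_iff hP hp' hq hy (hΘ τ hτ)]
  by_contra hno'
  apply hno
  rw [mem_image]
  refine ⟨(y, τ), ?_, rfl⟩
  rw [mem_filter, mem_product]
  exact ⟨⟨hy, hτ⟩, hno'⟩

/-! ### classes -/

open Classical in
/-- The points are divided into few classes of similar points. -/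
theorem classes {P : Finset Plane} (hP : GeneralPosition P) {Θ : Finset ℝ}
    (hΘ : ∀ τ ∈ Θ, 0 < τ) {D s : ℕ} (hD : 0 < D) (hs : 36 * (P.card * Θ.card) < s * D) {q : Plane}
    (hq : q ∈ P) : ∃ cl : Plane → Plane, ((P.erase q).image cl).card ≤ 2 * (8 * s ^ 2 + 1) ∧
      ∀ p ∈ P, ∀ p' ∈ P, p ≠ q → p' ≠ q → cl p = cl p' →
        (P.filter fun y => lab Θ p q y ≠ lab Θ p' q y).card ≤ 2 * D := by
  -- a maximal separated set
  let good : Finset Plane → Prop := fun Z => ∀ z ∈ Z, ∀ z' ∈ Z, z ≠ z' → D ≤ sep P Θ q z z'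
  obtain ⟨Z, hZ, hmax⟩ := exists_max_image ((P.erase q).powerset.filter good) card
    ⟨∅, by rw [mem_filter, mem_powerset]; exact ⟨empty_subset _, fun z hz => by simp at hz⟩⟩
  rw [mem_filter, mem_powerset] at hZ
  have hZc : Z.card ≤ 2 * (8 * s ^ 2 + 1) := by
    apply packing (Rl q) (P ×ˢ Θ) Z D 9 s (8 * s ^ 2 + 1) (by omega)
    · intro z hz z' hz' hne
      exact hZ.2 z hz z' hz' hne
    · intro h
      exact few_traces' q Z (fun z hz => (mem_erase.1 (hZ.1 hz)).1) h
    · intro h T hT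
      exact dim_le q Z (fun z hz => (mem_erase.1 (hZ.1 hz)).1) h T hT
    · rw [card_product]
      omega
  have hcov : ∀ p ∈ P.erase q, ∃ z ∈ Z, sep P Θ q p z < D := by
    intro p hp
    by_contra hno
    push Not at hno
    have hpZ : p ∉ Z := by
      intro h
      have h1 := hno p h
      unfold sep at h1
      simp at h1
      omega
    have h2 : insert p Z ∈ (P.erase q).powerset.filter good := by
      rw [mem_filter, mem_powerset]
      refine ⟨insert_subset hp hZ.1, ?_⟩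
      intro z hz z' hz' hne
      rw [mem_insert] at hz hz'
      rcases hz with rfl | hz <;> rcases hz' with rfl | hz'
      · exact absurd rfl hne
      · exact hno z' hz'
      · rw [sep_comm]
        exact hno z hz
      · exact hZ.2 z hz z' hz' hne
    have h3 := hmax _ h2
    rw [card_insert_of_notMem hpZ] at h3
    omega
  let cl : Plane → Plane := fun p => if h : ∃ z ∈ Z, sep P Θ q p z < D then h.choose else p
  have hcl : ∀ p ∈ P.erase q, cl p ∈ Z ∧ sep P Θ q p (cl p) < D := by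
    intro p hp
    simp only [cl]
    rw [dif_pos (hcov p hp)]
    exact (hcov p hp).choose_spec
  refine ⟨cl, ?_, ?_⟩
  · refine le_trans (card_le_card ?_) hZc
    intro z hz
    rw [mem_image] at hz
    obtain ⟨p, hp, rfl⟩ := hz
    exact (hcl p hp).1
  · intro p hp p' hp' hpq hpq' he
    have h1 := hcl p (mem_erase.2 ⟨hpq, hp⟩)
    have h2 := hcl p' (mem_erase.2 ⟨hpq', hp'⟩)
    refine (lab_sep hP hΘ hq hp hp').trans ?_
    have h3 := sep_triangle P Θ q p (cl p) p'
    have h4 : sep P Θ q (cl p) p' < D := by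
      rw [he, sep_comm]
      exact h2.2
    omega

/-! ### the bound -/

open Classical in
/-- **The combinatorial bound.** -/
theorem comb {P : Finset Plane} (hP : GeneralPosition P) {K t s D L g : ℕ}
    (hK : ∀ p ∈ P, ∀ q ∈ P, ∀ p' ∈ P, ∀ q' ∈ P, p ≠ q → p' ≠ q' →
      ({p, q} : Finset Plane) ≠ {p', q'} →
        (P.filter fun y => rho p q y = rho p' q' y).card ≤ K)
    (ht : 1 ≤ t) (hD : 0 < D) (hs : 36 * (P.card * t) < s * D) (hDn : 32 * D ≤ P.card)
    (hL : 0 < L) (hLk : 2 * (2 * (8 * s ^ 2 + 1) * L) + 1 ≤ P.card) (hg : g ≤ L ^ 2)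
    (hgK : 4 * (g * K) ≤ P.card) : g ≤ 4 * ((radii P).ncard / t + 2) := by
  obtain ⟨Θ, hΘV, hΘt, hΘ⟩ := thresh (vals P) ht
  have hΘ0 : ∀ τ ∈ Θ, 0 < τ := fun τ hτ => vals_pos hP (hΘV hτ)
  have hs' : 36 * (P.card * Θ.card) < s * D :=
    lt_of_le_of_lt (Nat.mul_le_mul_left _ (Nat.mul_le_mul_left _ hΘt)) hs
  have hcl := fun (q : Plane) (hq : q ∈ P) => classes hP hΘ0 hD hs' hq
  let cl : Plane → Plane → Plane := fun q => if h : q ∈ P then (hcl q h).choose else id
  have hcl1 : ∀ q (hq : q ∈ P), cl q = (hcl q hq).choose := by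
    intro q hq
    simp only [cl]
    rw [dif_pos hq]
  obtain ⟨a₀, ha₀, G₀, hG₀, hG₀c, hG₀l⟩ := cluster P (lab Θ) (lab_swap Θ) cl (2 * D)
    (by
      intro p hp p' hp' q hq hpq hpq' he
      rw [hcl1 q hq] at he
      exact (hcl q hq).choose_spec.2 p hp p' hp' hpq hpq' he)
    (2 * (8 * s ^ 2 + 1))
    (by
      intro q hq
      rw [hcl1 q hq]
      exact (hcl q hq).choose_spec.1)
    (by omega) L hL hLk
  obtain ⟨G, hG, hGc⟩ := exists_subset_card_eq (hg.trans hG₀c)
  have hGo : ∀ a ∈ G, a.1 ∈ P ∧ a.2 ∈ P ∧ a.1 ≠ a.2 := fun a ha => mem_offDiag.1 (hG₀ (hG ha))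
  have h1 := count P (lab Θ) rho (2 * D) ((vals P).card / t + 2) K a₀ G
    (fun a ha => hG₀l a (hG ha)) ?_ ?_
  · rw [hGc] at h1
    obtain ⟨n, hn⟩ : ∃ n, n = P.card := ⟨_, rfl⟩
    obtain ⟨R, hR⟩ : ∃ R, R = (vals P).card / t + 2 := ⟨_, rfl⟩
    rw [← hR, ← hn] at h1
    rw [← hn] at hDn hgK hLk
    have hn0 : 0 < n := by omega
    have e1 : 4 * (g * (2 * D)) * 4 ≤ g * n := by
      calc 4 * (g * (2 * D)) * 4 = g * (32 * D) := by ring
        _ ≤ g * n := Nat.mul_le_mul_left _ hDn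
    have e2 : 4 * (g ^ 2 * K) ≤ g * n := by
      calc 4 * (g ^ 2 * K) = g * (4 * (g * K)) := by ring
        _ ≤ g * n := Nat.mul_le_mul_left _ hgK
    have e3 : n * g ≤ n * (4 * R) := by
      have : n * (4 * R) = 4 * (n * R) := by ring
      have e4 : n * g = g * n := mul_comm _ _
      omega
    have e5 := Nat.le_of_mul_le_mul_left e3 hn0
    refine e5.trans (Nat.mul_le_mul_left _ ?_)
    rw [hR]
    exact Nat.add_le_add_right (Nat.div_le_div_right (card_vals hP)) _
  · intro y hy S hS hlab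
    -- the values in `vals P` and the value `0`
    have h2 : (S.image fun a => rho a.1 a.2 y) ⊆
        insert 0 ((S.image fun a => rho a.1 a.2 y).filter (· ∈ vals P)) := by
      intro v hv
      rw [mem_insert, mem_filter]
      rw [mem_image] at hv
      obtain ⟨a, ha, rfl⟩ := hv
      obtain ⟨g1, g2, g3⟩ := hGo a (hS ha)
      by_cases h : a.1 = y ∨ a.2 = y
      · left
        exact rho_degenerate (Or.inr h)
      · right
        push Not at h
        refine ⟨mem_image_of_mem (f := fun a : Plane × Plane => rho a.1 a.2 y) ha, ?_⟩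
        rw [mem_vals]
        exact ⟨a.1, g1, a.2, g2, y, hy, g3, h.1, h.2, rfl⟩
    refine (card_le_card h2).trans ((card_insert_le _ _).trans ?_)
    have h3 := hΘ ((S.image fun a => rho a.1 a.2 y).filter (· ∈ vals P))
      (fun v hv => (mem_filter.1 hv).2) (by
        intro v hv v' hv'
        rw [mem_filter, mem_image] at hv hv'
        obtain ⟨⟨a, ha, rfl⟩, -⟩ := hv
        obtain ⟨⟨a', ha', rfl⟩, -⟩ := hv'
        exact (hlab a ha).trans (hlab a' ha').symm)
    exact Nat.add_le_add_right h3 1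
  · intro a ha a' ha' hne hsw
    obtain ⟨g1, g2, g3⟩ := hGo a ha
    obtain ⟨g1', g2', g3'⟩ := hGo a' ha'
    apply hK a.1 g1 a.2 g2 a'.1 g1' a'.2 g2' g3 g3'
    intro h
    have m1 : a'.1 ∈ ({a.1, a.2} : Finset Plane) := by rw [h]; simp
    have m2 : a'.2 ∈ ({a.1, a.2} : Finset Plane) := by rw [h]; simp
    rw [mem_insert, mem_singleton] at m1 m2
    rcases m1 with m1 | m1 <;> rcases m2 with m2 | m2
    · exact g3' (m1.trans m2.symm)
    · exact hne (Prod.ext m1.symm m2.symm)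
    · exact hsw (Prod.ext m1 m2)
    · exact g3' (m1.trans m2.symm)

end Pool.Agent.Lib.MP_cd3201_co.Strong
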