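import Pool.Agent.Lib.MP_cd3201_co.Strong.Final

/-!
# Coincidences of radii lie on curves of degree at most six
-/

set_option autoImplicit false

open Finset

namespace Pool.Agent.Lib.MP_cd3201_co.Strong

/-- If the radii of `p, q, x` and `p', q', x` agree then `rho` agrees. -/
lemma rho_eq_of_radii {P : Finset Plane} (hP : GeneralPosition P) {p q p' q' x : Plane}
    (hp : p ∈ P) (hq : q ∈ P) (hp' : p' ∈ P) (hq' : q' ∈ P) (hx : x ∈ P) (hpq : p ≠ q)
    (hpq' : p' ≠ q') (h1 : p ≠ x) (h2 : q ≠ x) (h3 : p' ≠ x) (h4 : q' ≠ x) :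
    rho p q x = rho p' q' x ↔
      ∃ r, IsCircumradius {p, q, x} r ∧ IsCircumradius {p', q', x} r := by
  obtain ⟨r, -, hr1, hr2⟩ := gp_radius hP hp hq hx hpq h1 h2
  obtain ⟨r', -, hr1', hr2'⟩ := gp_radius hP hp' hq' hx hpq' h3 h4
  have hpos : ∀ {T : Finset Plane} {r : ℝ}, T.Nonempty → IsCircumradius T r → 0 ≤ r := by
    rintro T r ⟨y, hy⟩ ⟨c, hc⟩
    rw [← hc y hy]
    exact dist_nonneg
  constructor
  · intro h
    have e1 : r ^ 2 = r' ^ 2 := by rw [hr2, hr2', h]
    have e2 : r = r' :=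
      (pow_left_inj₀ (hpos ⟨p, by simp⟩ hr1) (hpos ⟨p', by simp⟩ hr1') (by norm_num)).1 e1
    refine ⟨r, hr1, ?_⟩
    rw [e2]
    exact hr1'
  · rintro ⟨s, hs, hs'⟩
    rw [← sq_of_circum (gp_dt hP hp hq hx hpq h1 h2) hs,
      ← sq_of_circum (gp_dt hP hp' hq' hx hpq' h3 h4) hs']

/-! ### Polynomials -/

open MvPolynomial in
/-- The square of the distance to `q`. -/
noncomputable def nnP (q : Plane) : MvPolynomial (Fin 2) ℝ :=
  (X 0 - C (q 0)) ^ 2 + (X 1 - C (q 1)) ^ 2

open MvPolynomial in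
/-- Twice the signed area of `p, q, x`. -/
noncomputable def dtP (p q : Plane) : MvPolynomial (Fin 2) ℝ :=
  C (q 0 - p 0) * (X 1 - C (p 1)) - C (q 1 - p 1) * (X 0 - C (p 0))

open MvPolynomial in
lemma eval_nnP (q : Plane) (x : Fin 2 → ℝ) :
    eval x (nnP q) = (x 0 - q 0) ^ 2 + (x 1 - q 1) ^ 2 := by
  simp [nnP]

open MvPolynomial in
lemma eval_dtP (p q : Plane) (x : Fin 2 → ℝ) :
    eval x (dtP p q) = (q 0 - p 0) * (x 1 - p 1) - (q 1 - p 1) * (x 0 - p 0) := by
  simp [dtP]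

open MvPolynomial in
lemma deg_lin (i : Fin 2) (a : ℝ) : (X i - C a : MvPolynomial (Fin 2) ℝ).totalDegree ≤ 1 := by
  refine (totalDegree_sub _ _).trans ?_
  rw [totalDegree_X, totalDegree_C]
  simp

open MvPolynomial in
lemma deg_nnP (q : Plane) : (nnP q).totalDegree ≤ 2 := by
  unfold nnP
  refine (totalDegree_add _ _).trans (max_le ?_ ?_)
  · refine (totalDegree_pow _ _).trans ?_
    have := deg_lin 0 (q 0)
    omega
  · refine (totalDegree_pow _ _).trans ?_
    have := deg_lin 1 (q 1)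
    omega

open MvPolynomial in
lemma deg_dtP (p q : Plane) : (dtP p q).totalDegree ≤ 1 := by
  unfold dtP
  refine (totalDegree_sub _ _).trans (max_le ?_ ?_)
  · refine (totalDegree_mul _ _).trans ?_
    have := deg_lin 1 (p 1)
    rw [totalDegree_C]
    omega
  · refine (totalDegree_mul _ _).trans ?_
    have := deg_lin 0 (p 0)
    rw [totalDegree_C]
    omega

open MvPolynomial in
/-- Its zeros are the points `x` for which the radii of `p, q, x` and `p', q', x` agree. -/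
noncomputable def cur (p q p' q' : Plane) : MvPolynomial (Fin 2) ℝ :=
  C (nn p q) * (nnP q * nnP p * dtP p' q' ^ 2) - C (nn p' q') * (nnP q' * nnP p' * dtP p q ^ 2)

open MvPolynomial in
lemma deg_half (c : ℝ) (p q p' q' : Plane) :
    (C c * (nnP q * nnP p * dtP p' q' ^ 2)).totalDegree ≤ 6 := by
  refine (totalDegree_mul _ _).trans ?_
  rw [totalDegree_C, zero_add]
  refine (totalDegree_mul _ _).trans ?_
  have h1 := totalDegree_mul (nnP q) (nnP p)
  have h2 := deg_nnP q
  have h3 := deg_nnP p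
  have h4 := totalDegree_pow (dtP p' q') 2
  have h5 := deg_dtP p' q'
  omega

open MvPolynomial in
lemma deg_cur (p q p' q' : Plane) : (cur p q p' q').totalDegree ≤ 6 :=
  (totalDegree_sub _ _).trans (max_le (deg_half _ _ _ _ _) (deg_half _ _ _ _ _))

open MvPolynomial in
lemma eval_cur (p q p' q' x : Plane) : eval (fun i => x i) (cur p q p' q') =
    pr p q x * dt p' q' x ^ 2 - pr p' q' x * dt p q x ^ 2 := by
  simp only [cur, map_sub, map_mul, map_pow, eval_C, eval_nnP, eval_dtP]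
  unfold pr nn dt
  ring

lemma cur_zero {p q p' q' x : Plane} (h : dt p q x ≠ 0) (h' : dt p' q' x ≠ 0)
    (hr : rho p q x = rho p' q' x) :
    MvPolynomial.eval (fun i => x i) (cur p q p' q') = 0 := by
  rw [eval_cur]
  unfold rho at hr
  rw [div_eq_div_iff (by positivity) (by positivity)] at hr
  linarith

/-- The point `p + l (q - p)`. -/
noncomputable def pt (p q : Plane) (l : ℝ) : Plane := p + l • (q - p)

lemma pt_apply (p q : Plane) (l : ℝ) (i : Fin 2) : pt p q l i = p i + l * (q i - p i) := by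
  simp [pt]

lemma dt_pt_self (p q : Plane) (l : ℝ) : dt p q (pt p q l) = 0 := by
  unfold dt
  rw [pt_apply, pt_apply]
  ring

lemma dt_pt (p q p' q' : Plane) (l : ℝ) :
    dt p' q' (pt p q l) = (1 - l) * dt p' q' p + l * dt p' q' q := by
  unfold dt
  rw [pt_apply, pt_apply]
  ring

lemma nn_pt (p q : Plane) (l : ℝ) : nn (pt p q l) p = l ^ 2 * nn p q := by
  unfold nn
  rw [pt_apply, pt_apply]
  ring

lemma nn_pt' (p q : Plane) (l : ℝ) : nn q (pt p q l) = (1 - l) ^ 2 * nn p q := by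
  unfold nn
  rw [pt_apply, pt_apply]
  ring

lemma cur_ne_aux {p q p' q' : Plane} (hpq : p ≠ q) (h : cur p q p' q' = 0) :
    dt p' q' p = 0 ∧ dt p' q' q = 0 := by
  have hl : ∀ l : ℝ, l ≠ 0 → l ≠ 1 → (1 - l) * dt p' q' p + l * dt p' q' q = 0 := by
    intro l h0 h1
    have h2 := eval_cur p q p' q' (pt p q l)
    rw [h, map_zero, dt_pt_self] at h2
    unfold pr at h2
    rw [nn_pt, nn_pt', dt_pt] at h2
    have h3 := nn_pos hpq
    have h4 : (1 - l) ≠ 0 := sub_ne_zero.2 h1.symm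
    have h5 : nn p q * ((1 - l) ^ 2 * nn p q) * (l ^ 2 * nn p q) *
        ((1 - l) * dt p' q' p + l * dt p' q' q) ^ 2 = 0 := by
      rw [zero_pow (by norm_num), mul_zero, sub_zero] at h2
      exact h2.symm
    have h6 : nn p q * ((1 - l) ^ 2 * nn p q) * (l ^ 2 * nn p q) ≠ 0 := by positivity
    exact pow_eq_zero_iff (two_ne_zero) |>.1 ((mul_eq_zero.1 h5).resolve_left h6)
  have h2 := hl 2 (by norm_num) (by norm_num)
  have h3 := hl 3 (by norm_num) (by norm_num)
  constructor <;> linarith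

/-- The curve is not the whole plane. -/
theorem cur_ne {P : Finset Plane} (hP : GeneralPosition P) {p q p' q' : Plane}
    (hp : p ∈ P) (hq : q ∈ P) (hp' : p' ∈ P) (hq' : q' ∈ P) (hpq : p ≠ q) (hpq' : p' ≠ q')
    (hne : ({p, q} : Finset Plane) ≠ {p', q'}) : cur p q p' q' ≠ 0 := by
  intro h
  obtain ⟨h1, h2⟩ := cur_ne_aux hpq h
  by_cases hc : p' ≠ p ∧ q' ≠ p
  · exact gp_dt hP hp' hq' hp hpq' hc.1 hc.2 h1
  by_cases hd : p' ≠ q ∧ q' ≠ q
  · exact gp_dt hP hp' hq' hq hpq' hd.1 hd.2 h2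
  apply hne
  have e1 : p' = p ∨ q' = p := by tauto
  have e2 : p' = q ∨ q' = q := by tauto
  rcases e1 with rfl | rfl
  · rcases e2 with rfl | rfl
    · exact absurd rfl hpq
    · rfl
  · rcases e2 with rfl | rfl
    · exact Finset.pair_comm _ _
    · exact absurd rfl hpq

end Pool.Agent.Lib.MP_cd3201_co.Strong
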