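import Pool.Agent.Lib.MP_cd3201_co.Strong.Comb
import Pool.Agent.Lib.MP_cd3201_co.Dense.Main

/-!
# The bound for sets with few points on curves
-/

set_option autoImplicit false

open Finset

namespace Pool.Agent.Lib.MP_cd3201_co.Strong

/-- `n ^ (5/4) / K ^ (3/4) = n (n K) ^ (1/4) / K` -/
lemma exponent {n K : ℝ} (hn : 0 < n) (hK : 0 < K) :
    n ^ (5 / 4 : ℝ) / K ^ (3 / 4 : ℝ) = n * (n * K) ^ (1 / 4 : ℝ) / K := by
  rw [Real.mul_rpow hn.le hK.le]
  have e1 : n ^ (5 / 4 : ℝ) = n * n ^ (1 / 4 : ℝ) := by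
    rw [show (5 / 4 : ℝ) = 1 + 1 / 4 by norm_num, Real.rpow_add hn, Real.rpow_one]
  have e3 : K ^ (1 / 4 : ℝ) * K ^ (3 / 4 : ℝ) = K := by
    rw [← Real.rpow_add hK]
    norm_num
  have h1 : 0 < K ^ (3 / 4 : ℝ) := Real.rpow_pos_of_pos hK _
  rw [e1, div_eq_div_iff h1.ne' hK.ne']
  linear_combination (-(n * n ^ (1 / 4 : ℝ))) * e3

open Classical in
/-- **The bound**, in terms of coincidences of radii. -/
theorem bound {P : Finset Plane} (hP : GeneralPosition P) (hn3 : 3 ≤ P.card) {K : ℕ} (hK1 : 1 ≤ K)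
    (hK : ∀ p ∈ P, ∀ q ∈ P, ∀ p' ∈ P, ∀ q' ∈ P, p ≠ q → p' ≠ q' →
      ({p, q} : Finset Plane) ≠ {p', q'} →
        (P.filter fun y => rho p q y = rho p' q' y).card ≤ K) :
    1 / 2560000 * ((P.card : ℝ) ^ (5 / 4 : ℝ) / (K : ℝ) ^ (3 / 4 : ℝ)) ≤ (radii P).ncard := by
  obtain ⟨n, hn⟩ : ∃ n, n = P.card := ⟨_, rfl⟩
  obtain ⟨R, hR⟩ : ∃ R, R = (radii P).ncard := ⟨_, rfl⟩
  have htriv : (n : ℝ) / 6 ≤ R := by
    rw [hn, hR]
    exact Dense.thmTriv P hP hn3
  rw [← hn, ← hR]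
  have hn3' : 3 ≤ n := by rw [hn]; exact hn3
  have hn0 : (0 : ℝ) < n := by
    have : (3 : ℝ) ≤ n := by exact_mod_cast hn3'
    linarith
  have hK0 : (1 : ℝ) ≤ K := by exact_mod_cast hK1
  have hK0' : (0 : ℝ) < K := by linarith
  rw [exponent hn0 hK0']
  obtain ⟨x, hx⟩ : ∃ x, x = ((n : ℝ) * K) ^ (1 / 4 : ℝ) := ⟨_, rfl⟩
  have hx0 : 0 < x := by rw [hx]; positivity
  have hx4 : x ^ 4 = n * K := by
    rw [hx, ← Real.rpow_natCast, ← Real.rpow_mul (by positivity)]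
    norm_num
  rw [← hx]
  -- the trivial cases
  have hcase : ∀ (_ : x ≤ 400000 * K), 1 / 2560000 * (n * x / K) ≤ R := by
    intro h
    refine le_trans ?_ htriv
    have : n * x / K ≤ n * 400000 := by
      rw [div_le_iff₀ hK0']
      nlinarith
    linarith
  by_cases hA : (n : ℝ) < 400 * K
  · apply hcase
    by_contra hlt
    push Not at hlt
    have h1 : (400000 * (K : ℝ)) ^ 4 < x ^ 4 := pow_lt_pow_left₀ hlt (by positivity) (by norm_num)
    rw [hx4] at h1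
    have h2 : (n : ℝ) * K ≤ 400 * K * K := by nlinarith
    have h3 : (K : ℝ) * K ≤ (K : ℝ) ^ 4 := by
      have : (1 : ℝ) ≤ (K : ℝ) ^ 2 := by nlinarith
      nlinarith
    nlinarith
  by_cases hB : x < 20000
  · apply hcase
    linarith
  push Not at hA hB
  have hAn : 400 * K ≤ n := by exact_mod_cast hA
  -- the parameters
  obtain ⟨t, ht⟩ : ∃ t, t = ⌊x / 20000⌋₊ := ⟨_, rfl⟩
  have ht1 : 1 ≤ t := by
    rw [ht]
    exact Nat.le_floor (by rw [Nat.cast_one, le_div_iff₀ (by norm_num)]; linarith)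
  have htle : (t : ℝ) ≤ x / 20000 := by
    rw [ht]
    exact Nat.floor_le (by positivity)
  have htge : x / 40000 ≤ t := by
    have h1 : x / 20000 < t + 1 := by
      rw [ht]
      exact Nat.lt_floor_add_one _
    have h2 : (1 : ℝ) ≤ t := by exact_mod_cast ht1
    linarith
  obtain ⟨D, hD⟩ : ∃ D, D = n / 32 := ⟨_, rfl⟩
  have hD1 : 32 * D ≤ n := by rw [hD]; exact Nat.mul_div_le n 32
  have hD2 : n ≤ 64 * D := by omega
  have hD0 : 0 < D := by omega
  obtain ⟨s, hs⟩ : ∃ s, s = 2304 * t + 1 := ⟨_, rfl⟩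
  have hs1 : 36 * (n * t) < s * D := by
    calc 36 * (n * t) ≤ 36 * (64 * D * t) := by gcongr
      _ = 2304 * t * D := by ring
      _ < 2304 * t * D + D := by omega
      _ = s * D := by rw [hs]; ring
  obtain ⟨k, hk⟩ : ∃ k, k = 2 * (8 * s ^ 2 + 1) := ⟨_, rfl⟩
  have hk0 : 0 < k := by omega
  have hk1 : k ≤ 100000000 * t ^ 2 := by
    have h1 : s ≤ 2305 * t := by omega
    have h2 : s ^ 2 ≤ (2305 * t) ^ 2 := Nat.pow_le_pow_left h1 2
    have h3 : 1 ≤ t ^ 2 := Nat.one_le_pow _ _ ht1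
    have h4 : (2305 * t) ^ 2 = 5313025 * t ^ 2 := by ring
    omega
  have hk2 : 16 * k ^ 2 ≤ n * K := by
    have h1 : (k : ℝ) ≤ 100000000 * (t : ℝ) ^ 2 := by exact_mod_cast hk1
    have h2 : (t : ℝ) ^ 4 ≤ (x / 20000) ^ 4 := by gcongr
    have h3 : (k : ℝ) ^ 2 ≤ (100000000 * (t : ℝ) ^ 2) ^ 2 := by gcongr
    have h4 : (100000000 * (t : ℝ) ^ 2) ^ 2 = 10000000000000000 * (t : ℝ) ^ 4 := by ring
    have h5 : (x / 20000) ^ 4 = x ^ 4 / 160000000000000000 := by ring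
    have h6 : 16 * (k : ℝ) ^ 2 ≤ n * K := by
      rw [← hx4]
      rw [h4] at h3
      rw [h5] at h2
      linarith
    exact_mod_cast h6
  have hk3 : 80 * k ≤ n := by
    have h1 : (80 * k) ^ 2 ≤ n ^ 2 := by
      calc (80 * k) ^ 2 = 400 * (16 * k ^ 2) := by ring
        _ ≤ 400 * (n * K) := Nat.mul_le_mul_left _ hk2
        _ = n * (400 * K) := by ring
        _ ≤ n * n := Nat.mul_le_mul_left _ hAn
        _ = n ^ 2 := by ring
    exact (Nat.pow_le_pow_iff_left (by norm_num)).1 h1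
  obtain ⟨L, hL⟩ : ∃ L, L = (n - 1) / (2 * k) := ⟨_, rfl⟩
  have hL1 : 2 * (k * L) + 1 ≤ n := by
    have h1 := Nat.mul_div_le (n - 1) (2 * k)
    rw [← hL, mul_assoc] at h1
    omega
  have hL0 : 0 < L := by
    rw [hL]
    exact Nat.div_pos (by omega) (by omega)
  have hL2 : n ≤ 4 * (k * L) := by
    have h1 := Nat.lt_mul_div_succ (n - 1) (show 0 < 2 * k by omega)
    rw [← hL] at h1
    have h2 : 2 * k * (L + 1) ≤ 4 * (k * L) := by
      calc 2 * k * (L + 1) ≤ 2 * k * (2 * L) := Nat.mul_le_mul_left _ (by omega)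
        _ = 4 * (k * L) := by ring
    omega
  obtain ⟨g, hg⟩ : ∃ g, g = n / (4 * K) := ⟨_, rfl⟩
  have hgK : 4 * (g * K) ≤ n := by
    have h1 := Nat.mul_div_le n (4 * K)
    rw [← hg] at h1
    calc 4 * (g * K) = 4 * K * g := by ring
      _ ≤ n := h1
  have hgL : g ≤ L ^ 2 := by
    -- `n² ≤ 16 k² L² ≤ n K L²`
    have h1 : n ^ 2 ≤ (4 * (k * L)) ^ 2 := Nat.pow_le_pow_left hL2 2
    have h2 : n * n ≤ n * (K * L ^ 2) := by
      calc n * n = n ^ 2 := by ring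
        _ ≤ (4 * (k * L)) ^ 2 := h1
        _ = 16 * k ^ 2 * L ^ 2 := by ring
        _ ≤ n * K * L ^ 2 := Nat.mul_le_mul_right _ hk2
        _ = n * (K * L ^ 2) := by ring
    have h3 : n ≤ K * L ^ 2 := Nat.le_of_mul_le_mul_left h2 (by omega)
    have h4 : K * g ≤ K * L ^ 2 := by
      have : K * g ≤ n := by
        have : 4 * (g * K) = 4 * (K * g) := by ring
        omega
      omega
    exact Nat.le_of_mul_le_mul_left h4 (by omega)
  have hmain : g ≤ 4 * (R / t + 2) := by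
    rw [hR]
    refine comb (s := s) hP hK ht1 hD0 ?_ ?_ hL0 ?_ hgL ?_
    · rw [← hn]; exact hs1
    · rw [← hn]; exact hD1
    · rw [← hk, ← hn]
      exact hL1
    · rw [← hn]; exact hgK
  -- conclusion
  have h1 : (n : ℝ) / (4 * K) ≤ g + 1 := by
    have h2 : n < 4 * K * (g + 1) := by
      rw [hg]
      exact Nat.lt_mul_div_succ n (by omega)
    rw [div_le_iff₀ (by positivity)]
    have : (n : ℝ) < 4 * K * (g + 1) := by exact_mod_cast h2
    linarith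
  have h2 : (100 : ℝ) ≤ n / (4 * K) := by
    rw [le_div_iff₀ (by positivity)]
    linarith
  have h3 : (n : ℝ) / (8 * K) ≤ g - 8 := by
    have : (n : ℝ) / (8 * K) = (n / (4 * K)) / 2 := by
      field_simp
      norm_num
    rw [this]
    linarith
  have h4 : (t : ℝ) * (g - 8) ≤ 4 * R := by
    have h5 : ((R / t : ℕ) : ℝ) * t ≤ R := by exact_mod_cast Nat.div_mul_le_self R t
    have h6 : (g : ℝ) ≤ 4 * (((R / t : ℕ) : ℝ) + 2) := by exact_mod_cast hmain
    have h7 : (0 : ℝ) ≤ t := Nat.cast_nonneg _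
    nlinarith
  have h5 : x / 40000 * (n / (8 * K)) ≤ 4 * R := by
    refine le_trans ?_ h4
    apply mul_le_mul htge h3 (by positivity) (Nat.cast_nonneg _)
  have h6 : x / 40000 * (n / (8 * K)) = n * x / K / 320000 := by
    field_simp
    norm_num
  rw [h6] at h5
  have h7 : 0 ≤ n * x / K := by positivity
  linarith

end Pool.Agent.Lib.MP_cd3201_co.Strong
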