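import Mathlib

/-!
# Haussler's packing lemma

`H` is a finite set of ranges, `Rel u z` says that the point `z` is in the range `u`. If any `s`
ranges have at most `c` traces on the points and shatter at most `d` ranges, and any two points of
`Z` are separated by at least `D` ranges, where `4 d |H| ≤ s D`, then `|Z| ≤ 2 c`.
-/

set_option autoImplicit false

open Finset

namespace Pool.Agent.Lib.MP_cd3201_co.Strong

section density

variable {β : Type*} [DecidableEq β]

/-- The edges of the one-inclusion graph in the direction `i`. -/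
def edg (F : Finset (Finset β)) (i : β) : Finset (Finset β) :=
  F.filter fun A => i ∉ A ∧ insert i A ∈ F

lemma mem_edg {F : Finset (Finset β)} {i : β} {A : Finset β} :
    A ∈ edg F i ↔ A ∈ F ∧ i ∉ A ∧ insert i A ∈ F := by
  unfold edg
  rw [mem_filter]

/-- The one-inclusion graph of a family of Vapnik-Chervonenkis dimension at most `d` has at most
`d |F|` edges. -/
theorem density (S : Finset β) : ∀ (F : Finset (Finset β)) (d : ℕ), (∀ A ∈ F, A ⊆ S) →
    (∀ T, F.Shatters T → T.card ≤ d) → ∑ i ∈ S, (edg F i).card ≤ d * F.card := by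
  induction S using Finset.induction_on with
  | empty => intro F d _ _; simp
  | insert a S ha ih =>
    intro F d hF hd
    -- the two subfamilies
    obtain ⟨F₀, hF₀⟩ : ∃ F₀, F₀ = F.filter fun A => a ∉ A := ⟨_, rfl⟩
    obtain ⟨F₁, hF₁⟩ : ∃ F₁, F₁ = (F.filter fun A => a ∈ A).image fun A => A.erase a := ⟨_, rfl⟩
    have m₀ : ∀ A, A ∈ F₀ ↔ A ∈ F ∧ a ∉ A := by intro A; rw [hF₀, mem_filter]
    have m₁ : ∀ A, A ∈ F₁ ↔ insert a A ∈ F ∧ a ∉ A := by
      intro A
      rw [hF₁, mem_image]
      constructor
      · rintro ⟨B, hB, rfl⟩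
        rw [mem_filter] at hB
        rw [insert_erase hB.2]
        exact ⟨hB.1, notMem_erase a B⟩
      · rintro ⟨h1, h2⟩
        refine ⟨insert a A, ?_, erase_insert h2⟩
        rw [mem_filter]
        exact ⟨h1, mem_insert_self _ _⟩
    have hc₁ : F₁.card = (F.filter fun A => a ∈ A).card := by
      rw [hF₁]
      apply card_image_of_injOn
      intro A hA B hB h
      have hA' := (mem_filter.1 hA).2
      have hB' := (mem_filter.1 hB).2
      have h' : A.erase a = B.erase a := h
      rw [← insert_erase hA', h', insert_erase hB']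
    have hcF : F.card = (F₀ ∪ F₁).card + (F₀ ∩ F₁).card := by
      rw [card_union_add_card_inter, hc₁, hF₀, add_comm]
      exact (card_filter_add_card_filter_not (s := F) (fun A => a ∈ A)).symm
    -- direction `a`
    have ea : (edg F a).card = (F₀ ∩ F₁).card := by
      congr 1
      ext A
      rw [mem_edg, mem_inter, m₀, m₁]
      tauto
    -- the other directions
    have ei : ∀ i ∈ S, (edg F i).card ≤ (edg (F₀ ∪ F₁) i).card + (edg (F₀ ∩ F₁) i).card := by
      intro i hi
      have hia : i ≠ a := fun h => ha (h ▸ hi)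
      have h1 : (edg F i).card = (edg F₀ i).card + (edg F₁ i).card := by
        rw [← card_filter_add_card_filter_not (s := edg F i) (fun A => a ∉ A)]
        congr 1
        · congr 1
          ext A
          rw [mem_filter, mem_edg, mem_edg, m₀, m₀, mem_insert]
          constructor
          · rintro ⟨⟨h1, h2, h3⟩, h4⟩
            exact ⟨⟨h1, h4⟩, h2, h3, fun h => h.elim (fun h => hia h.symm) h4⟩
          · rintro ⟨⟨h1, h4⟩, h2, h3, -⟩
            exact ⟨⟨h1, h2, h3⟩, h4⟩
        · have e1 : (edg F₁ i).card = ((edg F₁ i).image fun A => insert a A).card := by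
            rw [card_image_of_injOn]
            intro A hA B hB h
            have hA' := ((m₁ A).1 (mem_edg.1 hA).1).2
            have hB' := ((m₁ B).1 (mem_edg.1 hB).1).2
            have h' : insert a A = insert a B := h
            rw [← erase_insert hA', h', erase_insert hB']
          rw [e1]
          congr 1
          ext A
          rw [mem_filter, mem_edg, mem_image, not_not]
          constructor
          · rintro ⟨⟨h1, h2, h3⟩, h4⟩
            refine ⟨A.erase a, ?_, insert_erase h4⟩
            rw [mem_edg, m₁, m₁, insert_erase h4, Finset.insert_comm, insert_erase h4, mem_erase,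
              mem_insert, mem_erase]
            refine ⟨⟨h1, fun h => h.1 rfl⟩, fun h => h2 h.2, h3, ?_⟩
            rintro (h | h)
            · exact hia h.symm
            · exact (mem_erase.1 h).1 rfl
          · rintro ⟨B, hB, rfl⟩
            rw [mem_edg, m₁, m₁] at hB
            obtain ⟨⟨h1, h2⟩, h3, h4, h5⟩ := hB
            refine ⟨⟨h1, ?_, ?_⟩, mem_insert_self _ _⟩
            · rw [mem_insert]
              rintro (h | h)
              · exact hia h
              · exact h3 h
            · rw [Finset.insert_comm]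
              exact h4
      have h2 : (edg F₀ i).card + (edg F₁ i).card =
          (edg F₀ i ∪ edg F₁ i).card + (edg F₀ i ∩ edg F₁ i).card :=
        (card_union_add_card_inter _ _).symm
      rw [h1, h2]
      apply Nat.add_le_add
      · apply card_le_card
        intro A hA
        rw [mem_union, mem_edg, mem_edg] at hA
        rw [mem_edg, mem_union, mem_union]
        tauto
      · apply card_le_card
        intro A hA
        rw [mem_inter, mem_edg, mem_edg] at hA
        rw [mem_edg, mem_inter, mem_inter]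
        tauto
    -- the dimensions
    have dU : ∀ T, (F₀ ∪ F₁).Shatters T → T.card ≤ d := by
      intro T hT
      apply hd
      have haT : a ∉ T := by
        intro h
        obtain ⟨u, hu, hu'⟩ := hT (subset_refl T)
        have : a ∈ u := by
          have : a ∈ T ∩ u := by rw [hu']; exact h
          exact (mem_inter.1 this).2
        rw [mem_union, m₀, m₁] at hu
        rcases hu with hu | hu
        · exact hu.2 this
        · exact hu.2 this
      intro t ht
      obtain ⟨u, hu, hu'⟩ := hT ht
      rw [mem_union, m₀, m₁] at hu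
      rcases hu with hu | hu
      · exact ⟨u, hu.1, hu'⟩
      · refine ⟨insert a u, hu.1, ?_⟩
        rw [inter_insert_of_notMem haT]
        exact hu'
    have dI : ∀ T, (F₀ ∩ F₁).Shatters T → T.card + 1 ≤ d := by
      intro T hT
      have haT : a ∉ T := by
        intro h
        obtain ⟨u, hu, hu'⟩ := hT (subset_refl T)
        have : a ∈ u := by
          have : a ∈ T ∩ u := by rw [hu']; exact h
          exact (mem_inter.1 this).2
        rw [mem_inter, m₀] at hu
        exact hu.1.2 this
      rw [← card_insert_of_notMem haT]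
      apply hd
      intro t ht
      have ht' : t.erase a ⊆ T := by
        intro y hy
        rw [mem_erase] at hy
        exact (mem_insert.1 (ht hy.2)).resolve_left hy.1
      obtain ⟨u, hu, hu'⟩ := hT ht'
      rw [mem_inter, m₀, m₁] at hu
      obtain ⟨⟨hu1, hu2⟩, hu3, -⟩ := hu
      by_cases hat : a ∈ t
      · refine ⟨insert a u, hu3, ?_⟩
        rw [← insert_inter_distrib, hu', insert_erase hat]
      · refine ⟨u, hu1, ?_⟩
        rw [insert_inter_of_notMem hu2, hu', erase_eq_of_notMem hat]
    have sU : ∀ A ∈ F₀ ∪ F₁, A ⊆ S := by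
      intro A hA
      rw [mem_union, m₀, m₁] at hA
      rcases hA with ⟨h1, h2⟩ | ⟨h1, h2⟩
      · intro y hy
        exact (mem_insert.1 (hF A h1 hy)).resolve_left (fun h => h2 (h ▸ hy))
      · intro y hy
        exact (mem_insert.1 (hF _ h1 (mem_insert_of_mem hy))).resolve_left (fun h => h2 (h ▸ hy))
    have iU := ih (F₀ ∪ F₁) d sU dU
    have iI : ∑ i ∈ S, (edg (F₀ ∩ F₁) i).card + (F₀ ∩ F₁).card ≤ d * (F₀ ∩ F₁).card := by
      rcases (F₀ ∩ F₁).eq_empty_or_nonempty with h0 | ⟨A, hA⟩
      · rw [h0]
        simp [edg]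
      · have h1 : 1 ≤ d := by
          have := dI ∅ (by
            intro t ht
            rw [subset_empty] at ht
            exact ⟨A, hA, by rw [ht, empty_inter]⟩)
          omega
        obtain ⟨d', rfl⟩ : ∃ d', d = d' + 1 := ⟨d - 1, by omega⟩
        have := ih (F₀ ∩ F₁) d'
          (fun A hA => sU A (mem_union_left _ (mem_inter.1 hA).1))
          (fun T hT => by have := dI T hT; omega)
        rw [add_mul, one_mul]
        omega
    rw [sum_insert ha, ea, hcF, mul_add]
    have h3 := sum_le_sum ei
    rw [sum_add_distrib] at h3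
    omega

end density

section weights

variable {β : Type*} [DecidableEq β] [Fintype β]

/-- The weighted form. -/
theorem weights (w : Finset β → ℕ) (d : ℕ)
    (hd : ∀ T, (univ.filter fun A => 0 < w A).Shatters T → T.card ≤ d) :
    ∑ i : β, ∑ A ∈ univ.filter (fun A : Finset β => i ∉ A), min (w A) (w (insert i A)) ≤
      d * ∑ A, w A := by
  obtain ⟨M, hM⟩ : ∃ M, ∀ A, w A ≤ M := ⟨∑ A, w A, fun A => single_le_sum
    (f := w) (fun _ _ => Nat.zero_le _) (mem_univ A)⟩
  have hmin : ∀ x y : ℕ, x ≤ M → min x y = ∑ l ∈ range M, if l < x ∧ l < y then 1 else 0 := by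
    intro x y hx
    rw [← card_filter]
    have : (range M).filter (fun l => l < x ∧ l < y) = range (min x y) := by
      ext l
      simp only [mem_filter, mem_range, lt_min_iff]
      constructor
      · rintro ⟨-, h⟩
        exact h
      · rintro h
        exact ⟨h.1.trans_le hx, h⟩
    rw [this, card_range]
  have hself : ∀ x : ℕ, x ≤ M → x = ∑ l ∈ range M, if l < x then 1 else 0 := by
    intro x hx
    rw [← card_filter]
    have : (range M).filter (fun l => l < x) = range x := by
      ext l
      simp only [mem_filter, mem_range]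
      constructor
      · rintro ⟨-, h⟩
        exact h
      · rintro h
        exact ⟨h.trans_le hx, h⟩
    rw [this, card_range]
  have h1 : ∑ i : β, ∑ A ∈ univ.filter (fun A : Finset β => i ∉ A), min (w A) (w (insert i A)) =
      ∑ l ∈ range M, ∑ i : β, (edg (univ.filter fun A => l < w A) i).card := by
    rw [sum_comm]
    apply sum_congr rfl
    intro i _
    have e1 : ∀ A ∈ univ.filter (fun A : Finset β => i ∉ A), min (w A) (w (insert i A)) =
        ∑ l ∈ range M, if l < w A ∧ l < w (insert i A) then 1 else 0 :=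
      fun A _ => hmin _ _ (hM A)
    rw [sum_congr rfl e1, sum_comm]
    apply sum_congr rfl
    intro l _
    rw [← card_filter]
    congr 1
    ext A
    simp only [mem_filter, mem_univ, true_and, mem_edg]
    tauto
  rw [h1]
  have h2 : ∀ l ∈ range M, ∑ i : β, (edg (univ.filter fun A => l < w A) i).card ≤
      d * (univ.filter fun A => l < w A).card := by
    intro l _
    apply density
    · intro A _
      exact subset_univ A
    · intro T hT
      apply hd
      intro t ht
      obtain ⟨u, hu, hu'⟩ := hT ht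
      refine ⟨u, ?_, hu'⟩
      rw [mem_filter] at hu ⊢
      exact ⟨mem_univ _, lt_of_le_of_lt (Nat.zero_le _) hu.2⟩
  refine (sum_le_sum h2).trans ?_
  rw [← mul_sum]
  apply Nat.mul_le_mul_left
  have e1 : ∀ A ∈ (univ : Finset (Finset β)), w A = ∑ l ∈ range M, if l < w A then 1 else 0 :=
    fun A _ => hself _ (hM A)
  rw [sum_congr rfl e1, sum_comm]
  apply sum_le_sum
  intro l _
  rw [← card_filter]

end weights

section packing

variable {η α : Type*} [DecidableEq α]

open Classical in
/-- The trace of the point `z` on the ranges `h`. -/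
noncomputable def trc (Rel : η → α → Prop) {s : ℕ} (h : Fin s → η) (z : α) : Finset (Fin s) :=
  univ.filter fun i => Rel (h i) z

omit [DecidableEq α] in
lemma mem_trc {Rel : η → α → Prop} {s : ℕ} {h : Fin s → η} {z : α} {i : Fin s} :
    i ∈ trc Rel h z ↔ Rel (h i) z := by
  classical
  unfold trc
  simp

open Classical in
/-- Two points of a set are separated by `D` ranges; sum of the smaller parts. -/
theorem split_sum (Rel : η → α → Prop) (H : Finset η) (D : ℕ) (C : Finset α)
    (hD : ∀ z ∈ C, ∀ z' ∈ C, z ≠ z' → D ≤ (H.filter fun u => ¬ (Rel u z ↔ Rel u z')).card) :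
    D * C.card ≤ D + 2 * ∑ u ∈ H, min (C.filter fun z => ¬ Rel u z).card
      (C.filter fun z => Rel u z).card := by
  rcases C.eq_empty_or_nonempty with rfl | hC
  · simp
  have hb : 0 < C.card := card_pos.2 hC
  -- `b min(b₀, b₁) ≥ b₀ b₁`
  have h1 : ∀ u ∈ H, (C.filter fun z => ¬ Rel u z).card * (C.filter fun z => Rel u z).card ≤
      C.card * min (C.filter fun z => ¬ Rel u z).card (C.filter fun z => Rel u z).card := by
    intro u _
    have e0 := card_filter_le C (fun z => ¬ Rel u z)
    have e1 := card_filter_le C (fun z => Rel u z)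
    rcases le_total (C.filter fun z => ¬ Rel u z).card (C.filter fun z => Rel u z).card with h | h
    · rw [min_eq_left h, mul_comm]
      exact Nat.mul_le_mul_right _ e1
    · rw [min_eq_right h]
      exact Nat.mul_le_mul_right _ e0
  have h2 := sum_le_sum h1
  rw [← mul_sum] at h2
  -- pairs
  have h3 : ∑ u ∈ H, 2 * ((C.filter fun z => ¬ Rel u z).card * (C.filter fun z => Rel u z).card) =
      ∑ c ∈ C.offDiag, (H.filter fun u => ¬ (Rel u c.1 ↔ Rel u c.2)).card := by
    have e1 : ∑ c ∈ C.offDiag, (H.filter fun u => ¬ (Rel u c.1 ↔ Rel u c.2)).card =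
        ∑ u ∈ H, (C.offDiag.filter fun c => ¬ (Rel u c.1 ↔ Rel u c.2)).card := by
      simp only [card_filter]
      exact sum_comm
    rw [e1]
    apply sum_congr rfl
    intro u _
    have e2 : C.offDiag.filter (fun c => ¬ (Rel u c.1 ↔ Rel u c.2)) =
        ((C.filter fun z => ¬ Rel u z) ×ˢ (C.filter fun z => Rel u z)) ∪
          ((C.filter fun z => Rel u z) ×ˢ (C.filter fun z => ¬ Rel u z)) := by
      ext c
      simp only [mem_filter, mem_offDiag, mem_union, mem_product]
      constructor
      · rintro ⟨⟨h1, h2, -⟩, h4⟩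
        by_cases h5 : Rel u c.1 <;> by_cases h6 : Rel u c.2
        · exact absurd ⟨fun _ => h6, fun _ => h5⟩ h4
        · exact Or.inr ⟨⟨h1, h5⟩, h2, h6⟩
        · exact Or.inl ⟨⟨h1, h5⟩, h2, h6⟩
        · exact absurd ⟨fun h => absurd h h5, fun h => absurd h h6⟩ h4
      · rintro (⟨⟨h1, h2⟩, h3, h4⟩ | ⟨⟨h1, h2⟩, h3, h4⟩)
        · exact ⟨⟨h1, h3, fun h => h2 (h ▸ h4)⟩, fun h => h2 (h.2 h4)⟩
        · exact ⟨⟨h1, h3, fun h => h4 (h ▸ h2)⟩, fun h => h4 (h.1 h2)⟩
    rw [e2, card_union_of_disjoint, card_product, card_product]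
    · ring
    · rw [disjoint_left]
      intro c hc hc'
      rw [mem_product, mem_filter, mem_filter] at hc hc'
      exact hc.1.2 hc'.1.2
  have h4 : C.card * (C.card - 1) * D ≤
      ∑ c ∈ C.offDiag, (H.filter fun u => ¬ (Rel u c.1 ↔ Rel u c.2)).card := by
    have e1 : ∀ c ∈ C.offDiag, D ≤ (H.filter fun u => ¬ (Rel u c.1 ↔ Rel u c.2)).card := by
      intro c hc
      rw [mem_offDiag] at hc
      exact hD c.1 hc.1 c.2 hc.2.1 hc.2.2
    have e2 := sum_le_sum e1
    rw [sum_const, smul_eq_mul, offDiag_card] at e2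
    refine le_trans (le_of_eq ?_) e2
    rw [Nat.mul_sub_one]
  rw [← h3, ← mul_sum] at h4
  have h5 : C.card * ((C.card - 1) * D) ≤ C.card * (2 * ∑ u ∈ H,
      min (C.filter fun z => ¬ Rel u z).card (C.filter fun z => Rel u z).card) := by
    calc C.card * ((C.card - 1) * D) = C.card * (C.card - 1) * D := by ring
      _ ≤ 2 * ∑ u ∈ H, (C.filter fun z => ¬ Rel u z).card * (C.filter fun z => Rel u z).card := h4
      _ ≤ 2 * (C.card * ∑ u ∈ H,
          min (C.filter fun z => ¬ Rel u z).card (C.filter fun z => Rel u z).card) :=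
        Nat.mul_le_mul_left _ h2
      _ = _ := by ring
  have h6 := Nat.le_of_mul_le_mul_left h5 hb
  have h7 : D * C.card = D + (C.card - 1) * D := by
    obtain ⟨m, hm⟩ : ∃ m, C.card = m + 1 := ⟨C.card - 1, by omega⟩
    rw [hm]
    simp
    ring
  rw [h7]
  exact Nat.add_le_add_left h6 _

open Classical in
/-- The weights of the traces. -/
noncomputable def wgt (Rel : η → α → Prop) (Z : Finset α) {s : ℕ} (h : Fin s → η)
    (B : Finset (Fin s)) : ℕ := (Z.filter fun z => trc Rel h z = B).card

/-- The sum of the weights of the edges in the direction `i`. -/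
noncomputable def We (Rel : η → α → Prop) (Z : Finset α) {s : ℕ} (i : Fin s) (h : Fin s → η) : ℕ :=
  ∑ B ∈ univ.filter (fun B : Finset (Fin s) => i ∉ B), min (wgt Rel Z h B)
    (wgt Rel Z h (insert i B))

omit [DecidableEq α] in
open Classical in
theorem We_le (Rel : η → α → Prop) (Z : Finset α) {s : ℕ} (h : Fin s → η) (d : ℕ)
    (hd : ∀ (T : Finset (Fin s)), (Z.image (trc Rel h)).Shatters T → T.card ≤ d) :
    ∑ i, We Rel Z i h ≤ d * Z.card := by
  have h1 := weights (wgt Rel Z h) d (by
    intro T hT
    apply hd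
    intro t ht
    obtain ⟨u, hu, hu'⟩ := hT ht
    refine ⟨u, ?_, hu'⟩
    rw [mem_filter] at hu
    have h2 := hu.2
    unfold wgt at h2
    rw [card_pos] at h2
    obtain ⟨z, hz⟩ := h2
    rw [mem_filter] at hz
    rw [mem_image]
    exact ⟨z, hz.1, hz.2⟩)
  refine h1.trans (le_of_eq ?_)
  congr 1
  unfold wgt
  exact (card_eq_sum_card_fiberwise (fun _ _ => mem_coe.2 (mem_univ _))).symm

open Classical in
/-- The lower bound for the resampled direction. -/
theorem We_ge (Rel : η → α → Prop) (H : Finset η) (Z : Finset α) (D c : ℕ)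
    (hD : ∀ z ∈ Z, ∀ z' ∈ Z, z ≠ z' → D ≤ (H.filter fun u => ¬ (Rel u z ↔ Rel u z')).card)
    {s : ℕ} (h : Fin s → η) (hc : (Z.image (trc Rel h)).card ≤ c) (i : Fin s) :
    D * Z.card ≤ D * c + 2 * ∑ u ∈ H, We Rel Z i (Function.update h i u) := by
  -- the classes
  let cl : Finset (Fin s) → Finset α := fun B => Z.filter fun z => (trc Rel h z).erase i = B
  have hupd : ∀ (u : η) (z : α) (l : Fin s), l ∈ trc Rel (Function.update h i u) z ↔
      if l = i then Rel u z else Rel (h l) z := by
    intro u z l
    rw [mem_trc]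
    split_ifs with hl
    · rw [hl, Function.update_self]
    · rw [Function.update_of_ne hl]
  have e0 : ∀ (u : η) (B : Finset (Fin s)), i ∉ B →
      wgt Rel Z (Function.update h i u) B = ((cl B).filter fun z => ¬ Rel u z).card := by
    intro u B hB
    unfold wgt
    congr 1
    ext z
    simp only [cl, mem_filter]
    constructor
    · rintro ⟨hz, hz'⟩
      refine ⟨⟨hz, ?_⟩, ?_⟩
      · ext l
        rw [mem_erase, mem_trc, ← hz', hupd]
        split_ifs with hl
        · constructor
          · rintro ⟨h1, -⟩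
            exact absurd hl h1
          · intro h1
            exfalso
            apply hB
            rw [← hz', hupd, if_pos rfl]
            exact h1
        · exact ⟨fun h1 => h1.2, fun h1 => ⟨hl, h1⟩⟩
      · intro h1
        apply hB
        rw [← hz', hupd, if_pos rfl]
        exact h1
    · rintro ⟨⟨hz, hz'⟩, h1⟩
      refine ⟨hz, ?_⟩
      ext l
      rw [hupd, ← hz', mem_erase, mem_trc]
      split_ifs with hl
      · exact ⟨fun h2 => absurd h2 h1, fun h2 => absurd hl h2.1⟩
      · exact ⟨fun h2 => ⟨hl, h2⟩, fun h2 => h2.2⟩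
  have e1 : ∀ (u : η) (B : Finset (Fin s)), i ∉ B →
      wgt Rel Z (Function.update h i u) (insert i B) = ((cl B).filter fun z => Rel u z).card := by
    intro u B hB
    unfold wgt
    congr 1
    ext z
    simp only [cl, mem_filter]
    constructor
    · rintro ⟨hz, hz'⟩
      refine ⟨⟨hz, ?_⟩, ?_⟩
      · ext l
        have h2 : l ∈ trc Rel (Function.update h i u) z ↔ l ∈ insert i B := by rw [hz']
        rw [hupd, mem_insert] at h2
        rw [mem_erase, mem_trc]
        by_cases hl : l = i
        · rw [hl]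
          exact ⟨fun h3 => absurd rfl h3.1, fun h3 => absurd h3 hB⟩
        · rw [if_neg hl] at h2
          exact ⟨fun h3 => (h2.1 h3.2).resolve_left hl, fun h3 => ⟨hl, h2.2 (Or.inr h3)⟩⟩
      · have h2 : i ∈ trc Rel (Function.update h i u) z := by rw [hz']; exact mem_insert_self _ _
        rw [hupd, if_pos rfl] at h2
        exact h2
    · rintro ⟨⟨hz, hz'⟩, h1⟩
      refine ⟨hz, ?_⟩
      ext l
      rw [hupd, mem_insert, ← hz', mem_erase, mem_trc]
      split_ifs with hl
      · exact ⟨fun _ => Or.inl hl, fun _ => h1⟩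
      · exact ⟨fun h2 => Or.inr ⟨hl, h2⟩, fun h2 => (h2.resolve_left hl).2⟩
  -- the sum
  have h1 : ∑ u ∈ H, We Rel Z i (Function.update h i u) =
      ∑ B ∈ univ.filter (fun B : Finset (Fin s) => i ∉ B), ∑ u ∈ H,
        min ((cl B).filter fun z => ¬ Rel u z).card ((cl B).filter fun z => Rel u z).card := by
    unfold We
    rw [sum_comm]
    apply sum_congr rfl
    intro B hB
    rw [mem_filter] at hB
    apply sum_congr rfl
    intro u _
    rw [e0 u B hB.2, e1 u B hB.2]
  -- nonempty classes
  obtain ⟨N, hN⟩ : ∃ N, N = Z.image fun z => (trc Rel h z).erase i := ⟨_, rfl⟩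
  have hNc : N.card ≤ c := by
    refine le_trans ?_ hc
    have : N = (Z.image (trc Rel h)).image fun B => B.erase i := by
      rw [hN, image_image]
      rfl
    rw [this]
    exact card_image_le
  have hNs : N ⊆ univ.filter (fun B : Finset (Fin s) => i ∉ B) := by
    intro B hB
    rw [hN, mem_image] at hB
    obtain ⟨z, -, rfl⟩ := hB
    rw [mem_filter]
    exact ⟨mem_univ _, notMem_erase _ _⟩
  have h2 : ∀ B ∈ N, D * (cl B).card ≤ D + 2 * ∑ u ∈ H,
      min ((cl B).filter fun z => ¬ Rel u z).card ((cl B).filter fun z => Rel u z).card := by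
    intro B _
    apply split_sum
    intro z hz z' hz' hne
    exact hD z (mem_filter.1 hz).1 z' (mem_filter.1 hz').1 hne
  have h3 := sum_le_sum h2
  rw [sum_add_distrib, sum_const, smul_eq_mul, ← mul_sum, ← mul_sum] at h3
  have h4 : ∑ B ∈ N, (cl B).card = Z.card := by
    simp only [cl]
    rw [hN]
    exact (card_eq_sum_card_image _ Z).symm
  rw [h4] at h3
  have h5 : ∑ B ∈ N, ∑ u ∈ H,
        min ((cl B).filter fun z => ¬ Rel u z).card ((cl B).filter fun z => Rel u z).card ≤
      ∑ u ∈ H, We Rel Z i (Function.update h i u) := by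
    rw [h1]
    exact sum_le_sum_of_subset hNs
  calc D * Z.card ≤ N.card * D + 2 * ∑ B ∈ N, ∑ u ∈ H,
        min ((cl B).filter fun z => ¬ Rel u z).card ((cl B).filter fun z => Rel u z).card := h3
    _ ≤ c * D + 2 * ∑ u ∈ H, We Rel Z i (Function.update h i u) :=
        Nat.add_le_add (Nat.mul_le_mul_right _ hNc) (Nat.mul_le_mul_left _ h5)
    _ = _ := by ring

open Classical in
/-- **Packing lemma.** -/
theorem packing (Rel : η → α → Prop) (H : Finset η) (Z : Finset α) (D d s c : ℕ) (hc1 : 1 ≤ c)
    (hD : ∀ z ∈ Z, ∀ z' ∈ Z, z ≠ z' → D ≤ (H.filter fun u => ¬ (Rel u z ↔ Rel u z')).card)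
    (hc : ∀ h : Fin s → η, (Z.image (trc Rel h)).card ≤ c)
    (hd : ∀ (h : Fin s → η) (T : Finset (Fin s)), (Z.image (trc Rel h)).Shatters T → T.card ≤ d)
    (hs : 4 * (d * H.card) < s * D) : Z.card ≤ 2 * c := by
  have hH : H.Nonempty ∨ Z.card ≤ 1 := by
    by_contra hno
    push Not at hno
    obtain ⟨h1, h2⟩ := hno
    obtain ⟨z, hz, z', hz', hne⟩ := one_lt_card.1 h2
    have h3 := hD z hz z' hz' hne
    rw [h1] at h3
    simp only [filter_empty, card_empty, nonpos_iff_eq_zero] at h3
    rw [h3] at hs
    simp at hs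
  rcases hH with hH | hZ
  swap
  · omega
  obtain ⟨A, hA⟩ : ∃ A, A = Fintype.piFinset (fun _ : Fin s => H) := ⟨_, rfl⟩
  have hAm : ∀ h, h ∈ A ↔ ∀ i, h i ∈ H := by
    intro h
    rw [hA, Fintype.mem_piFinset]
  have hAc : 0 < A.card := by
    obtain ⟨u, hu⟩ := hH
    rw [card_pos]
    exact ⟨fun _ => u, (hAm _).2 fun _ => hu⟩
  -- resampling
  have hres : ∀ i : Fin s, ∑ h ∈ A, ∑ u ∈ H, We Rel Z i (Function.update h i u) =
      H.card * ∑ h ∈ A, We Rel Z i h := by
    intro i
    rw [← sum_product']
    have e1 : H.card * ∑ h ∈ A, We Rel Z i h = ∑ x ∈ A ×ˢ H, We Rel Z i x.1 := by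
      rw [sum_product]
      simp only [sum_const, smul_eq_mul]
      rw [mul_sum]
    rw [e1]
    refine sum_nbij' (fun x => (Function.update x.1 i x.2, x.1 i))
      (fun x => (Function.update x.1 i x.2, x.1 i)) ?_ ?_ ?_ ?_ ?_
    · intro x hx
      rw [mem_product, hAm] at hx ⊢
      refine ⟨fun l => ?_, hx.1 i⟩
      rcases eq_or_ne l i with rfl | hl
      · simp only [Function.update_self]
        exact hx.2
      · simp only [Function.update_of_ne hl]
        exact hx.1 l
    · intro x hx
      rw [mem_product, hAm] at hx ⊢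
      refine ⟨fun l => ?_, hx.1 i⟩
      rcases eq_or_ne l i with rfl | hl
      · simp only [Function.update_self]
        exact hx.2
      · simp only [Function.update_of_ne hl]
        exact hx.1 l
    · intro x _
      simp
    · intro x _
      simp
    · intro x _
      rfl
  have h1 : ∀ i ∈ (univ : Finset (Fin s)), ∀ h ∈ A, D * Z.card ≤
      D * c + 2 * ∑ u ∈ H, We Rel Z i (Function.update h i u) :=
    fun i _ h _ => We_ge Rel H Z D c hD h (hc h) i
  have h2 : ∑ _i : Fin s, ∑ _h ∈ A, D * Z.card ≤
      ∑ i : Fin s, ∑ h ∈ A, (D * c + 2 * ∑ u ∈ H, We Rel Z i (Function.update h i u)) :=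
    sum_le_sum fun i hi => sum_le_sum fun h hh => h1 i hi h hh
  have h3 : ∑ i : Fin s, ∑ h ∈ A, (D * c + 2 * ∑ u ∈ H, We Rel Z i (Function.update h i u)) =
      s * (A.card * (D * c)) + 2 * (H.card * ∑ h ∈ A, ∑ i : Fin s, We Rel Z i h) := by
    have e1 : ∀ i : Fin s, ∑ h ∈ A, (D * c + 2 * ∑ u ∈ H, We Rel Z i (Function.update h i u)) =
        A.card * (D * c) + 2 * (H.card * ∑ h ∈ A, We Rel Z i h) := by
      intro i
      rw [sum_add_distrib, sum_const, smul_eq_mul, ← mul_sum, hres i]
    rw [sum_congr rfl fun i _ => e1 i, sum_add_distrib, sum_const, card_univ, Fintype.card_fin,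
      smul_eq_mul, ← mul_sum, ← mul_sum, sum_comm]
  have h4 : ∑ h ∈ A, ∑ i : Fin s, We Rel Z i h ≤ A.card * (d * Z.card) := by
    have e1 : ∀ h ∈ A, ∑ i : Fin s, We Rel Z i h ≤ d * Z.card :=
      fun h _ => We_le Rel Z h d (hd h)
    refine (sum_le_sum e1).trans (le_of_eq ?_)
    rw [sum_const, smul_eq_mul]
  rw [h3, sum_const, sum_const, card_univ, Fintype.card_fin, smul_eq_mul, smul_eq_mul] at h2
  have h5 : A.card * (s * D * Z.card) ≤ A.card * (s * D * c + 2 * (d * H.card) * Z.card) := by
    calc A.card * (s * D * Z.card) = s * (A.card * (D * Z.card)) := by ring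
      _ ≤ s * (A.card * (D * c)) + 2 * (H.card * ∑ h ∈ A, ∑ i : Fin s, We Rel Z i h) := h2
      _ ≤ s * (A.card * (D * c)) + 2 * (H.card * (A.card * (d * Z.card))) := by
          gcongr
      _ = _ := by ring
  have h6 := Nat.le_of_mul_le_mul_left h5 hAc
  obtain ⟨X, hX⟩ : ∃ X, X = s * D := ⟨_, rfl⟩
  obtain ⟨Y, hY⟩ : ∃ Y, Y = d * H.card := ⟨_, rfl⟩
  rw [← hX, ← hY] at h6 hs
  have hX0 : 0 < X := by omega
  have h7 : 2 * (2 * Y * Z.card) ≤ X * Z.card := by
    calc 2 * (2 * Y * Z.card) = (4 * Y) * Z.card := by ring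
      _ ≤ X * Z.card := Nat.mul_le_mul_right _ hs.le
  have h8 : X * Z.card ≤ X * (2 * c) := by
    have : X * (2 * c) = 2 * (X * c) := by ring
    omega
  exact Nat.le_of_mul_le_mul_left h8 hX0

end packing

end Pool.Agent.Lib.MP_cd3201_co.Strong
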