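import Pool.Agent.Lib.MP_cd3201_co.Strong.Sign
import Pool.Agent.Lib.MP_cd3201_co.Strong.Pack
import Pool.Agent.Lib.MP_cd3201_co.Radii

/-!
# The circumradius function

`rho p q x` is the square of the circumradius of `p, q, x`; for fixed `q` and `x` the condition
`τ < rho p q x` on `p` depends only on the signs of two functions which become affine functions
after an inversion with centre `q`.
-/

set_option autoImplicit false

open Finset

namespace Pool.Agent.Lib.MP_cd3201_co.Strong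

/-- The square of the distance. -/
def nn (p q : Plane) : ℝ := (p 0 - q 0) ^ 2 + (p 1 - q 1) ^ 2

/-- Twice the signed area. -/
def dt (p q x : Plane) : ℝ := (q 0 - p 0) * (x 1 - p 1) - (q 1 - p 1) * (x 0 - p 0)

/-- The product of the squares of the sides. -/
def pr (p q x : Plane) : ℝ := nn p q * nn q x * nn x p

/-- The square of the circumradius. -/
noncomputable def rho (p q x : Plane) : ℝ := pr p q x / (4 * dt p q x ^ 2)

lemma nn_comm (p q : Plane) : nn p q = nn q p := by unfold nn; ring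

lemma nn_self (p : Plane) : nn p p = 0 := by unfold nn; ring

lemma nn_nonneg (p q : Plane) : 0 ≤ nn p q := by unfold nn; positivity

lemma nn_pos {p q : Plane} (h : p ≠ q) : 0 < nn p q := by
  unfold nn
  by_contra hle
  push Not at hle
  have h0 : (p 0 - q 0) ^ 2 = 0 := by nlinarith [sq_nonneg (p 0 - q 0), sq_nonneg (p 1 - q 1)]
  have h1 : (p 1 - q 1) ^ 2 = 0 := by nlinarith [sq_nonneg (p 0 - q 0), sq_nonneg (p 1 - q 1)]
  apply h
  ext i
  fin_cases i
  · have := pow_eq_zero_iff (two_ne_zero) |>.1 h0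
    simp only [Fin.zero_eta]
    linarith
  · have := pow_eq_zero_iff (two_ne_zero) |>.1 h1
    simp only [Fin.mk_one]
    linarith

lemma pr_swap (p q x : Plane) : pr p q x = pr q p x := by
  unfold pr
  rw [nn_comm p q, nn_comm q x, nn_comm x p]
  ring

lemma dt_swap (p q x : Plane) : dt p q x = - dt q p x := by unfold dt; ring

lemma rho_swap (p q x : Plane) : rho p q x = rho q p x := by
  unfold rho
  rw [pr_swap, dt_swap, neg_sq]

lemma sq_dist (p q : Plane) : dist p q ^ 2 = nn p q := by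
  rw [EuclideanSpace.dist_eq, Real.sq_sqrt (by positivity)]
  simp [nn, Real.dist_eq, sq_abs]

/-- `(2 r)² · (2 area)²` is the product of the squares of the sides. -/
theorem circum {p q x : Plane} {r : ℝ} (h : IsCircumradius {p, q, x} r) :
    4 * r ^ 2 * dt p q x ^ 2 = pr p q x := by
  obtain ⟨o, ho⟩ := h
  have h1 := sq_dist p o
  have h2 := sq_dist q o
  have h3 := sq_dist x o
  rw [ho p (by simp)] at h1
  rw [ho q (by simp)] at h2
  rw [ho x (by simp)] at h3
  unfold nn at h1 h2 h3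
  obtain ⟨b1, hb1⟩ : ∃ t, t = q 0 - p 0 := ⟨_, rfl⟩
  obtain ⟨b2, hb2⟩ : ∃ t, t = q 1 - p 1 := ⟨_, rfl⟩
  obtain ⟨c1, hc1⟩ : ∃ t, t = x 0 - p 0 := ⟨_, rfl⟩
  obtain ⟨c2, hc2⟩ : ∃ t, t = x 1 - p 1 := ⟨_, rfl⟩
  obtain ⟨u, hu⟩ : ∃ t, t = o 0 - p 0 := ⟨_, rfl⟩
  obtain ⟨v, hv⟩ : ∃ t, t = o 1 - p 1 := ⟨_, rfl⟩
  have e1 : r ^ 2 = u ^ 2 + v ^ 2 := by rw [h1, hu, hv]; ring
  have e2 : 2 * (u * b1 + v * b2) = b1 ^ 2 + b2 ^ 2 := by
    have : r ^ 2 = (b1 - u) ^ 2 + (b2 - v) ^ 2 := by rw [h2, hu, hv, hb1, hb2]; ring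
    linarith
  have e3 : 2 * (u * c1 + v * c2) = c1 ^ 2 + c2 ^ 2 := by
    have : r ^ 2 = (c1 - u) ^ 2 + (c2 - v) ^ 2 := by rw [h3, hu, hv, hc1, hc2]; ring
    linarith
  have f1 : 2 * u * (b1 * c2 - b2 * c1) = (b1 ^ 2 + b2 ^ 2) * c2 - (c1 ^ 2 + c2 ^ 2) * b2 := by
    rw [← e2, ← e3]; ring
  have f2 : 2 * v * (b1 * c2 - b2 * c1) = (c1 ^ 2 + c2 ^ 2) * b1 - (b1 ^ 2 + b2 ^ 2) * c1 := by
    rw [← e2, ← e3]; ring
  have g1 : dt p q x = b1 * c2 - b2 * c1 := by unfold dt; rw [hb1, hb2, hc1, hc2]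
  have g2 : pr p q x = (b1 ^ 2 + b2 ^ 2) * ((b1 - c1) ^ 2 + (b2 - c2) ^ 2) * (c1 ^ 2 + c2 ^ 2) := by
    unfold pr nn; rw [hb1, hb2, hc1, hc2]; ring
  rw [g1, g2]
  calc 4 * r ^ 2 * (b1 * c2 - b2 * c1) ^ 2 =
      (2 * u * (b1 * c2 - b2 * c1)) ^ 2 + (2 * v * (b1 * c2 - b2 * c1)) ^ 2 := by rw [e1]; ring
    _ = _ := by rw [f1, f2]; ring

theorem dt_ne_zero {p q x : Plane} (hcol : ¬ Collinear ℝ ({p, q, x} : Set Plane)) :
    dt p q x ≠ 0 := by
  intro h0
  apply hcol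
  unfold dt at h0
  rw [collinear_iff_of_mem (p₀ := p) (by simp)]
  by_cases hq : q = p
  · refine ⟨x - p, ?_⟩
    intro y hy
    simp only [Set.mem_insert_iff, Set.mem_singleton_iff] at hy
    rcases hy with rfl | rfl | rfl
    · exact ⟨0, by simp⟩
    · exact ⟨0, by simp [hq]⟩
    · exact ⟨1, by simp⟩
  · refine ⟨q - p, ?_⟩
    intro y hy
    simp only [Set.mem_insert_iff, Set.mem_singleton_iff] at hy
    have hn := nn_pos hq
    rcases hy with rfl | rfl | rfl
    · exact ⟨0, by simp⟩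
    · exact ⟨1, by simp⟩
    · refine ⟨((q 0 - p 0) * (y 0 - p 0) + (q 1 - p 1) * (y 1 - p 1)) / nn q p, ?_⟩
      unfold nn at hn ⊢
      ext i
      fin_cases i
      · simp only [Fin.zero_eta, vadd_eq_add, PiLp.add_apply, PiLp.smul_apply, PiLp.sub_apply,
          smul_eq_mul]
        field_simp
        linear_combination (-(q 1 - p 1)) * h0
      · simp only [Fin.mk_one, vadd_eq_add, PiLp.add_apply, PiLp.smul_apply, PiLp.sub_apply,
          smul_eq_mul]
        field_simp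
        linear_combination (q 0 - p 0) * h0

/-- The condition `τ < rho p q x` without denominators. -/
def Cd (τ : ℝ) (q x p : Plane) : Prop := 4 * τ * dt p q x ^ 2 < pr p q x

lemma cd_iff {τ : ℝ} {p q x : Plane} (h : dt p q x ≠ 0) : τ < rho p q x ↔ Cd τ q x p := by
  unfold Cd rho
  have : 0 < 4 * dt p q x ^ 2 := by positivity
  rw [lt_div_iff₀ this]
  constructor <;> intro h <;> linarith

/-- For fixed `q`, `x`, `τ` the condition on `p` is given by two signs. -/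
theorem cd_signs (τ : ℝ) (hτ : 0 ≤ τ) (q x : Plane) :
    ∃ (a b : ℝ × ℝ × ℝ) (Φ : SignType → SignType → Prop), ∀ p : Plane, Cd τ q x p ↔
      Φ (SignType.sign (a.1 * (p 0 - q 0) + a.2.1 * (p 1 - q 1) + a.2.2 * nn p q))
        (SignType.sign (b.1 * (p 0 - q 0) + b.2.1 * (p 1 - q 1) + b.2.2 * nn p q)) := by
  obtain ⟨X1, hX1⟩ : ∃ t, t = x 0 - q 0 := ⟨_, rfl⟩
  obtain ⟨X2, hX2⟩ : ∃ t, t = x 1 - q 1 := ⟨_, rfl⟩
  obtain ⟨N, hN⟩ : ∃ t, t = X1 ^ 2 + X2 ^ 2 := ⟨_, rfl⟩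
  have hN0 : 0 ≤ N := by rw [hN]; positivity
  have key : ∀ p : Plane, Cd τ q x p ↔
      (4 * τ - N) * ((p 0 - q 0) * X2 - (p 1 - q 1) * X1) ^ 2 <
        N * (nn p q - (p 0 - q 0) * X1 - (p 1 - q 1) * X2) ^ 2 := by
    intro p
    have e : pr p q x - 4 * τ * dt p q x ^ 2 =
        N * (nn p q - (p 0 - q 0) * X1 - (p 1 - q 1) * X2) ^ 2 -
          (4 * τ - N) * ((p 0 - q 0) * X2 - (p 1 - q 1) * X1) ^ 2 := by
      unfold pr dt nn
      have e1 : x 0 = X1 + q 0 := by rw [hX1]; ring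
      have e2 : x 1 = X2 + q 1 := by rw [hX2]; ring
      rw [e1, e2, hN]
      ring
    unfold Cd
    constructor <;> intro h <;> linarith
  by_cases hμ : 0 ≤ 4 * τ - N
  · obtain ⟨m, hm⟩ : ∃ m, m = √(4 * τ - N) := ⟨_, rfl⟩
    obtain ⟨w, hw⟩ : ∃ w, w = √N := ⟨_, rfl⟩
    have hm2 : m ^ 2 = 4 * τ - N := by rw [hm]; exact Real.sq_sqrt hμ
    have hw2 : w ^ 2 = N := by rw [hw]; exact Real.sq_sqrt hN0
    refine ⟨(-(w * X1) - m * X2, -(w * X2) + m * X1, w), (-(w * X1) + m * X2,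
      -(w * X2) - m * X1, w), fun σ σ' => σ * σ' = 1, fun p => ?_⟩
    rw [key p]
    dsimp only
    rw [← sign_mul, sign_eq_one_iff]
    have e : (-(w * X1) - m * X2) * (p 0 - q 0) + (-(w * X2) + m * X1) * (p 1 - q 1) +
        w * nn p q = w * (nn p q - (p 0 - q 0) * X1 - (p 1 - q 1) * X2) -
          m * ((p 0 - q 0) * X2 - (p 1 - q 1) * X1) := by ring
    have e' : (-(w * X1) + m * X2) * (p 0 - q 0) + (-(w * X2) - m * X1) * (p 1 - q 1) +
        w * nn p q = w * (nn p q - (p 0 - q 0) * X1 - (p 1 - q 1) * X2) +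
          m * ((p 0 - q 0) * X2 - (p 1 - q 1) * X1) := by ring
    rw [e, e', ← hm2, ← hw2]
    have e3 : (w * (nn p q - (p 0 - q 0) * X1 - (p 1 - q 1) * X2) -
          m * ((p 0 - q 0) * X2 - (p 1 - q 1) * X1)) *
        (w * (nn p q - (p 0 - q 0) * X1 - (p 1 - q 1) * X2) +
          m * ((p 0 - q 0) * X2 - (p 1 - q 1) * X1)) =
        w ^ 2 * (nn p q - (p 0 - q 0) * X1 - (p 1 - q 1) * X2) ^ 2 -
          m ^ 2 * ((p 0 - q 0) * X2 - (p 1 - q 1) * X1) ^ 2 := by ring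
    rw [e3, sub_pos]
  · push Not at hμ
    refine ⟨(-X1, -X2, 1), (X2, -X1, 0), fun σ σ' => ¬ (σ = 0 ∧ σ' = 0), fun p => ?_⟩
    rw [key p]
    dsimp only
    rw [sign_eq_zero_iff, sign_eq_zero_iff]
    obtain ⟨S, hS⟩ : ∃ t, t = nn p q - (p 0 - q 0) * X1 - (p 1 - q 1) * X2 := ⟨_, rfl⟩
    obtain ⟨D, hD⟩ : ∃ t, t = (p 0 - q 0) * X2 - (p 1 - q 1) * X1 := ⟨_, rfl⟩
    have e1 : -X1 * (p 0 - q 0) + -X2 * (p 1 - q 1) + 1 * nn p q = S := by rw [hS]; ring
    have e2 : X2 * (p 0 - q 0) + -X1 * (p 1 - q 1) + 0 * nn p q = D := by rw [hD]; ring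
    simp only [e1, e2, ← hS, ← hD]
    have hN1 : 0 < N := by linarith
    constructor
    · rintro h ⟨h1, h2⟩
      rw [h1, h2] at h
      simp at h
    · intro h
      by_cases hD0 : D = 0
      · have hS0 : S ≠ 0 := fun h' => h ⟨h', hD0⟩
        rw [hD0]
        have : 0 < N * S ^ 2 := by positivity
        simpa using this
      · have h1 : (4 * τ - N) * D ^ 2 < 0 := mul_neg_of_neg_of_pos hμ (by positivity)
        have h2 : 0 ≤ N * S ^ 2 := by positivity
        linarith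

open Classical in
/-- The number of `τ ∈ Θ` with `τ < rho p q x` (no denominators). -/
noncomputable def lev (Θ : Finset ℝ) (q x p : Plane) : ℕ := (Θ.filter fun τ => Cd τ q x p).card

/-- The condition as a relation between ranges `(x, τ)` and points `p`. -/
def Rl (q : Plane) (u : Plane × ℝ) (p : Plane) : Prop := Cd |u.2| q u.1 p

/-- **Few traces.** For fixed `q`, any `s` ranges have at most `8 s ^ 2 + 1` traces on the points
different from `q`. -/
theorem few_traces (q : Plane) {s : ℕ} (h : Fin s → Plane × ℝ) :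
    (trc (Rl q) h '' {p : Plane | p ≠ q}).ncard ≤ 8 * s ^ 2 + 1 := by
  classical
  choose a b Φ hΦ using fun (y : Fin s) => cd_signs |(h y).2| (abs_nonneg _) q (h y).1
  let co : Fin s × Bool → ℝ × ℝ × ℝ := fun z => if z.2 then a z.1 else b z.1
  let f : Fin s × Bool → ℝ × ℝ → ℝ := fun z u => (co z).1 * u.1 + (co z).2.1 * u.2 + (co z).2.2
  let F : (Fin s × Bool → SignType) → Finset (Fin s) := fun v =>
    univ.filter fun i => Φ i (v (i, true)) (v (i, false))
  have h1 : trc (Rl q) h '' {p : Plane | p ≠ q} ⊆ F '' (pat f univ '' Set.univ) := by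
    rintro _ ⟨p, hp, rfl⟩
    have hn : 0 < nn p q := nn_pos hp
    refine ⟨pat f univ ((p 0 - q 0) / nn p q, (p 1 - q 1) / nn p q), ⟨_, trivial, rfl⟩, ?_⟩
    have hs : ∀ c : ℝ × ℝ × ℝ,
        SignType.sign (c.1 * ((p 0 - q 0) / nn p q) + c.2.1 * ((p 1 - q 1) / nn p q) + c.2.2) =
        SignType.sign (c.1 * (p 0 - q 0) + c.2.1 * (p 1 - q 1) + c.2.2 * nn p q) := by
      intro c
      have e : c.1 * (p 0 - q 0) + c.2.1 * (p 1 - q 1) + c.2.2 * nn p q =
          (c.1 * ((p 0 - q 0) / nn p q) + c.2.1 * ((p 1 - q 1) / nn p q) + c.2.2) * nn p q := by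
        field_simp
      rw [e, sign_mul, sign_pos hn, mul_one]
    ext i
    rw [mem_trc]
    simp only [F, mem_filter, mem_univ, true_and]
    unfold Rl
    rw [hΦ i p]
    simp only [pat, mem_univ, if_true, f, co, hs, Bool.false_eq_true, if_false]
  have h3 := num_plane (fun z => (co z).1) (fun z => (co z).2.1) (fun z => (co z).2.2)
    (univ : Finset (Fin s × Bool)) Set.univ (fun _ _ _ _ _ _ _ => trivial)
  have h4 : (univ : Finset (Fin s × Bool)).card = 2 * s := by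
    rw [Finset.card_univ, Fintype.card_prod, Fintype.card_fin, Fintype.card_bool]
    ring
  rw [h4] at h3
  calc _ ≤ (F '' (pat f univ '' Set.univ)).ncard :=
        Set.ncard_le_ncard h1 ((Set.toFinite _).image _)
    _ ≤ (pat f univ '' Set.univ).ncard := Set.ncard_image_le (Set.toFinite _)
    _ ≤ 2 * (2 * s) ^ 2 + 1 := h3
    _ = _ := by ring

open Classical in
/-- The same for finite sets. -/
theorem few_traces' (q : Plane) (Z : Finset Plane) (hZ : ∀ z ∈ Z, z ≠ q) {s : ℕ}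
    (h : Fin s → Plane × ℝ) : (Z.image (trc (Rl q) h)).card ≤ 8 * s ^ 2 + 1 := by
  refine le_trans ?_ (few_traces q h)
  rw [← Set.ncard_coe_finset]
  apply Set.ncard_le_ncard _ (Set.toFinite _)
  intro B hB
  rw [mem_coe, mem_image] at hB
  obtain ⟨z, hz, rfl⟩ := hB
  exact ⟨z, hZ z hz, rfl⟩

open Classical in
/-- At most nine ranges are shattered. -/
theorem dim_le (q : Plane) (Z : Finset Plane) (hZ : ∀ z ∈ Z, z ≠ q) {s : ℕ}
    (h : Fin s → Plane × ℝ) (T : Finset (Fin s)) (hT : (Z.image (trc (Rl q) h)).Shatters T) :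
    T.card ≤ 9 := by
  by_contra hlt
  push Not at hlt
  obtain ⟨T', hT', hc⟩ := exists_subset_card_eq (s := T) (n := 10) (by omega)
  let e := T'.orderEmbOfFin hc
  have h1 := few_traces' q Z hZ (h ∘ e)
  have h2 : Z.image (trc (Rl q) (h ∘ e)) = univ := by
    rw [eq_univ_iff_forall]
    intro t
    have ht : t.map e.toEmbedding ⊆ T := by
      intro y hy
      rw [mem_map] at hy
      obtain ⟨i, -, rfl⟩ := hy
      exact hT' (T'.orderEmbOfFin_mem hc i)
    obtain ⟨u, hu, hu'⟩ := hT ht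
    rw [mem_image] at hu
    obtain ⟨z, hz, rfl⟩ := hu
    rw [mem_image]
    refine ⟨z, hz, ?_⟩
    ext i
    have h3 : e i ∈ T ∩ trc (Rl q) h z ↔ e i ∈ t.map e.toEmbedding := by rw [hu']
    rw [mem_inter, mem_trc, mem_map] at h3
    rw [mem_trc]
    constructor
    · intro h4
      obtain ⟨i', hi', h5⟩ := h3.1 ⟨hT' (T'.orderEmbOfFin_mem hc i), h4⟩
      have : i' = i := e.injective h5
      rw [← this]
      exact hi'
    · intro h4
      exact (h3.2 ⟨i, h4, rfl⟩).2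
  rw [h2, card_univ, Fintype.card_finset, Fintype.card_fin] at h1
  norm_num at h1

end Pool.Agent.Lib.MP_cd3201_co.Strong
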