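import Pool.Agent.Lib.MP_cd3201_co.Strong.Curves

/-!
# The three forms of the theorem
-/

set_option autoImplicit false

open Finset

namespace Pool.Agent.Lib.MP_cd3201_co.Strong

/-- The points `x` of `P`, different from `p, q, p', q'`, for which the triples `p, q, x` and
`p', q', x` have a common circumradius. -/
def Coinc (P : Finset Plane) (p q p' q' : Plane) : Set Plane :=
  {x | x ∈ P ∧ x ≠ p ∧ x ≠ q ∧ x ≠ p' ∧ x ≠ q' ∧
    ∃ r, IsCircumradius {p, q, x} r ∧ IsCircumradius {p', q', x} r}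

/-- The zeros of the polynomial `f` in `P`. -/
def Zeros (P : Finset Plane) (f : MvPolynomial (Fin 2) ℝ) : Set Plane :=
  {x | x ∈ P ∧ MvPolynomial.eval (fun i => x i) f = 0}

/-- (1) -/
theorem one : ∃ c : ℝ, 0 < c ∧ ∀ (P : Finset Plane) (K : ℕ), GeneralPosition P → 3 ≤ P.card →
    1 ≤ K → (∀ p ∈ P, ∀ q ∈ P, ∀ p' ∈ P, ∀ q' ∈ P, p ≠ q → p' ≠ q' →
      ({p, q} : Set Plane) ≠ {p', q'} → (Coinc P p q p' q').ncard ≤ K) →
    c * ((P.card : ℝ) ^ (5 / 4 : ℝ) / (K : ℝ) ^ (3 / 4 : ℝ)) ≤ (radii P).ncard := by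
  classical
  refine ⟨1 / 12800000, by norm_num, fun P K hP h3 hK1 hK => ?_⟩
  have h1 := bound hP h3 (K := 5 * K) (by omega) (by
    intro p hp q hq p' hp' q' hq' hpq hpq' hne
    have hne' : ({p, q} : Set Plane) ≠ {p', q'} := by
      intro h
      apply hne
      ext x
      have := Set.ext_iff.1 h x
      simpa using this
    have h2 := hK p hp q hq p' hp' q' hq' hpq hpq' hne'
    have hfin : (Coinc P p q p' q').Finite := P.finite_toSet.subset fun x hx => hx.1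
    have h4 : (P.filter fun y => rho p q y = rho p' q' y) ⊆ hfin.toFinset ∪ {p, q, p', q'} := by
      intro x hx
      rw [mem_filter] at hx
      rw [mem_union, Set.Finite.mem_toFinset]
      by_cases hx' : x ≠ p ∧ x ≠ q ∧ x ≠ p' ∧ x ≠ q'
      · left
        obtain ⟨a1, a2, a3, a4⟩ := hx'
        exact ⟨hx.1, a1, a2, a3, a4, (rho_eq_of_radii hP hp hq hp' hq' hx.1 hpq hpq' a1.symm a2.symm
          a3.symm a4.symm).1 hx.2⟩
      · right
        simp only [mem_insert, mem_singleton]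
        tauto
    refine (card_le_card h4).trans ((card_union_le _ _).trans ?_)
    have h5 : hfin.toFinset.card ≤ K := by
      rw [← Set.ncard_eq_toFinset_card _ hfin]
      exact h2
    have h6 : ({p, q, p', q'} : Finset Plane).card ≤ 4 := card_le_four
    omega)
  refine le_trans ?_ h1
  have hK0 : (0 : ℝ) < K := by exact_mod_cast hK1
  have h7 : ((5 * K : ℕ) : ℝ) ^ (3 / 4 : ℝ) ≤ 5 * (K : ℝ) ^ (3 / 4 : ℝ) := by
    rw [Nat.cast_mul, Real.mul_rpow (by norm_num) hK0.le]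
    have : ((5 : ℕ) : ℝ) ^ (3 / 4 : ℝ) ≤ 5 := by
      have h8 := Real.rpow_le_rpow_of_exponent_le (x := ((5 : ℕ) : ℝ)) (y := 3 / 4) (z := 1)
        (by norm_num) (by norm_num)
      rw [Real.rpow_one] at h8
      exact_mod_cast h8
    exact mul_le_mul_of_nonneg_right this (by positivity)
  have h8 : (0 : ℝ) < (K : ℝ) ^ (3 / 4 : ℝ) := Real.rpow_pos_of_pos hK0 _
  have h9 : (0 : ℝ) < ((5 * K : ℕ) : ℝ) ^ (3 / 4 : ℝ) :=
    Real.rpow_pos_of_pos (by exact_mod_cast (by omega : 0 < 5 * K)) _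
  have h10 : (0 : ℝ) ≤ (P.card : ℝ) ^ (5 / 4 : ℝ) := by positivity
  have h11 : (P.card : ℝ) ^ (5 / 4 : ℝ) / (5 * (K : ℝ) ^ (3 / 4 : ℝ)) ≤
      (P.card : ℝ) ^ (5 / 4 : ℝ) / ((5 * K : ℕ) : ℝ) ^ (3 / 4 : ℝ) :=
    div_le_div_of_nonneg_left h10 h9 h7
  calc 1 / 12800000 * ((P.card : ℝ) ^ (5 / 4 : ℝ) / (K : ℝ) ^ (3 / 4 : ℝ)) =
      1 / 2560000 * ((P.card : ℝ) ^ (5 / 4 : ℝ) / (5 * (K : ℝ) ^ (3 / 4 : ℝ))) := by
        field_simp
        norm_num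
    _ ≤ _ := mul_le_mul_of_nonneg_left h11 (by norm_num)

/-- The coincidences lie on a curve of degree at most six. -/
theorem coinc_le {P : Finset Plane} (hP : GeneralPosition P) {K : ℕ}
    (hK : ∀ f : MvPolynomial (Fin 2) ℝ, f ≠ 0 → f.totalDegree ≤ 6 → (Zeros P f).ncard ≤ K)
    {p q p' q' : Plane} (hp : p ∈ P) (hq : q ∈ P) (hp' : p' ∈ P) (hq' : q' ∈ P) (hpq : p ≠ q)
    (hpq' : p' ≠ q') (hne : ({p, q} : Set Plane) ≠ {p', q'}) :
    (Coinc P p q p' q').ncard ≤ K := by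
  classical
  have hne' : ({p, q} : Finset Plane) ≠ {p', q'} := by
    intro h
    apply hne
    ext x
    have := Finset.ext_iff.1 h x
    simpa using this
  refine le_trans (Set.ncard_le_ncard ?_ ?_)
    (hK (cur p q p' q') (cur_ne hP hp hq hp' hq' hpq hpq' hne') (deg_cur _ _ _ _))
  · rintro x ⟨hx, a1, a2, a3, a4, hr⟩
    exact ⟨hx, cur_zero (gp_dt hP hp hq hx hpq a1.symm a2.symm)
      (gp_dt hP hp' hq' hx hpq' a3.symm a4.symm)
      ((rho_eq_of_radii hP hp hq hp' hq' hx hpq hpq' a1.symm a2.symm a3.symm a4.symm).2 hr)⟩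
  · exact P.finite_toSet.subset fun x hx => hx.1

/-- (2) -/
theorem two : ∃ c : ℝ, 0 < c ∧ ∀ (P : Finset Plane) (K : ℕ), GeneralPosition P → 3 ≤ P.card →
    1 ≤ K →
    (∀ f : MvPolynomial (Fin 2) ℝ, f ≠ 0 → f.totalDegree ≤ 6 → (Zeros P f).ncard ≤ K) →
    c * ((P.card : ℝ) ^ (5 / 4 : ℝ) / (K : ℝ) ^ (3 / 4 : ℝ)) ≤ (radii P).ncard := by
  obtain ⟨c, hc, h⟩ := one
  refine ⟨c, hc, fun P K hP h3 hK1 hK => h P K hP h3 hK1 ?_⟩
  intro p hp q hq p' hp' q' hq' hpq hpq' hne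
  exact coinc_le hP hK hp hq hp' hq' hpq hpq' hne

/-- (3) -/
theorem three : ∀ C : ℝ, ∃ c : ℝ, 0 < c ∧ ∀ P : Finset Plane, GeneralPosition P → 3 ≤ P.card →
    ((radii P).ncard : ℝ) ≤ C * P.card →
      ∃ f : MvPolynomial (Fin 2) ℝ, f ≠ 0 ∧ f.totalDegree ≤ 6 ∧
        c * (P.card : ℝ) ^ (1 / 3 : ℝ) ≤ (Zeros P f).ncard := by
  intro C
  obtain ⟨c₂, hc₂, h2⟩ := two
  obtain ⟨D, hD⟩ : ∃ D, D = max C 1 := ⟨_, rfl⟩
  have hD0 : 0 < D := by rw [hD]; exact lt_of_lt_of_le one_pos (le_max_right _ _)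
  have hCD : C ≤ D := by rw [hD]; exact le_max_left _ _
  obtain ⟨c, hc⟩ : ∃ c, c = (c₂ / (2 * D)) ^ (4 / 3 : ℝ) / 2 := ⟨_, rfl⟩
  have hc0 : 0 < c := by rw [hc]; positivity
  have hc2 : (2 * c) ^ (3 / 4 : ℝ) = c₂ / (2 * D) := by
    rw [hc, mul_div_cancel₀ _ (two_ne_zero), ← Real.rpow_mul (by positivity)]
    norm_num
  refine ⟨c, hc0, fun P hP h3 hR => ?_⟩
  by_contra hcon
  push Not at hcon
  have hn0 : (0 : ℝ) < P.card := by
    have : (3 : ℝ) ≤ P.card := by exact_mod_cast h3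
    linarith
  obtain ⟨y, hy⟩ : ∃ y, y = (P.card : ℝ) ^ (1 / 3 : ℝ) := ⟨_, rfl⟩
  rw [← hy] at hcon
  have hy0 : 0 < y := by rw [hy]; exact Real.rpow_pos_of_pos hn0 _
  -- `1 ≤ c y`
  have h1 : 1 ≤ c * y := by
    obtain ⟨p, hp⟩ : P.Nonempty := by rw [← card_pos]; omega
    have h4 := hcon (MvPolynomial.X 0 - MvPolynomial.C (p 0)) ?_ ?_
    · have h5 : 0 < (Zeros P (MvPolynomial.X 0 - MvPolynomial.C (p 0))).ncard := by
        rw [Set.ncard_pos (P.finite_toSet.subset fun x hx => hx.1)]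
        exact ⟨p, hp, by simp⟩
      have h6 : (1 : ℝ) ≤ (Zeros P (MvPolynomial.X 0 - MvPolynomial.C (p 0))).ncard := by
        exact_mod_cast h5
      linarith
    · intro h
      have h5 := congrArg (MvPolynomial.eval fun _ => p 0 + 1) h
      simp at h5
    · exact (deg_lin 0 (p 0)).trans (by norm_num)
  obtain ⟨K, hK⟩ : ∃ K, K = ⌈c * y⌉₊ := ⟨_, rfl⟩
  have hK1 : 1 ≤ K := by
    rw [hK, Nat.one_le_ceil_iff]
    linarith
  have hK2 : c * y ≤ K := by rw [hK]; exact Nat.le_ceil _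
  have hK3 : (K : ℝ) ≤ 2 * c * y := by
    have : (K : ℝ) < c * y + 1 := by
      rw [hK]
      exact Nat.ceil_lt_add_one (by positivity)
    linarith
  have hK0 : (0 : ℝ) < K := by exact_mod_cast hK1
  have h4 := h2 P K hP h3 hK1 (by
    intro f hf hd
    have := hcon f hf hd
    have h5 : ((Zeros P f).ncard : ℝ) ≤ K := by linarith
    exact_mod_cast h5)
  have h5 : (K : ℝ) ^ (3 / 4 : ℝ) ≤ c₂ / (2 * D) * (P.card : ℝ) ^ (1 / 4 : ℝ) := by
    calc (K : ℝ) ^ (3 / 4 : ℝ) ≤ (2 * c * y) ^ (3 / 4 : ℝ) :=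
          Real.rpow_le_rpow hK0.le hK3 (by norm_num)
      _ = (2 * c) ^ (3 / 4 : ℝ) * y ^ (3 / 4 : ℝ) := Real.mul_rpow (by positivity) hy0.le
      _ = c₂ / (2 * D) * (P.card : ℝ) ^ (1 / 4 : ℝ) := by
          rw [hc2, hy, ← Real.rpow_mul hn0.le]
          norm_num
  have h6 : (P.card : ℝ) ^ (5 / 4 : ℝ) = P.card * (P.card : ℝ) ^ (1 / 4 : ℝ) := by
    rw [show (5 / 4 : ℝ) = 1 + 1 / 4 by norm_num, Real.rpow_add hn0, Real.rpow_one]
  have h7 : c₂ * ((P.card : ℝ) ^ (5 / 4 : ℝ) / (K : ℝ) ^ (3 / 4 : ℝ)) ≤ D * P.card :=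
    h4.trans (hR.trans (mul_le_mul_of_nonneg_right hCD hn0.le))
  have h8 : (0 : ℝ) < (K : ℝ) ^ (3 / 4 : ℝ) := Real.rpow_pos_of_pos hK0 _
  have h9 : (0 : ℝ) < (P.card : ℝ) ^ (1 / 4 : ℝ) := Real.rpow_pos_of_pos hn0 _
  rw [← mul_div_assoc, div_le_iff₀ h8] at h7
  have h10 : c₂ * (P.card * (P.card : ℝ) ^ (1 / 4 : ℝ)) ≤
      D * P.card * (c₂ / (2 * D) * (P.card : ℝ) ^ (1 / 4 : ℝ)) := by
    rw [← h6]
    exact h7.trans (mul_le_mul_of_nonneg_left h5 (by positivity))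
  have h11 : D * P.card * (c₂ / (2 * D) * (P.card : ℝ) ^ (1 / 4 : ℝ)) =
      c₂ * (P.card * (P.card : ℝ) ^ (1 / 4 : ℝ)) / 2 := by
    field_simp
  rw [h11] at h10
  have h12 : 0 < c₂ * (P.card * (P.card : ℝ) ^ (1 / 4 : ℝ)) := by positivity
  linarith

end Pool.Agent.Lib.MP_cd3201_co.Strong
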