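import Mathlib

/-!
# Sign patterns of affine functions in the plane

`m` affine functions on the plane have at most `2 m ^ 2 + 1` sign patterns.
-/

set_option autoImplicit false

open Finset

set_option linter.unusedSectionVars false

namespace Pool.Agent.Lib.MP_cd3201_co.Strong

open Classical in
/-- The sign pattern of the functions `f i`, `i ∈ s`, at `u`. -/
noncomputable def pat {ι E : Type*} (f : ι → E → ℝ) (s : Finset ι) (u : E) : ι → SignType :=
  fun i => if i ∈ s then SignType.sign (f i u) else 0

lemma pat_insert {ι E : Type*} [DecidableEq ι] (f : ι → E → ℝ) (s : Finset ι) (a : ι) (u : E) :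
    pat f (insert a s) u = Function.update (pat f s u) a (SignType.sign (f a u)) := by
  funext i
  unfold pat
  rcases eq_or_ne i a with rfl | h
  · simp
  · simp [h]

/-- A function is affine along segments. -/
def Aff {E : Type*} [AddCommGroup E] [Module ℝ E] (f : E → ℝ) : Prop :=
  ∀ (u v : E) (l : ℝ), f ((1 - l) • u + l • v) = (1 - l) * f u + l * f v

/-- A set closed under taking points of segments. -/
def Cvx {E : Type*} [AddCommGroup E] [Module ℝ E] (U : Set E) : Prop :=
  ∀ u ∈ U, ∀ v ∈ U, ∀ l : ℝ, 0 ≤ l → l ≤ 1 → (1 - l) • u + l • v ∈ U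

lemma sign_seg {x y l : ℝ} (h : SignType.sign x = SignType.sign y) (h0 : 0 ≤ l) (h1 : l ≤ 1) :
    SignType.sign ((1 - l) * x + l * y) = SignType.sign x := by
  rcases lt_trichotomy x 0 with hx | hx | hx
  · rw [sign_neg hx] at h ⊢
    have hy : y < 0 := sign_eq_neg_one_iff.1 h.symm
    apply sign_neg
    rcases eq_or_lt_of_le h0 with rfl | h0
    · simpa using hx
    · nlinarith
  · subst hx
    rw [sign_zero] at h ⊢
    have hy : y = 0 := sign_eq_zero_iff.1 h.symm
    simp [hy]
  · rw [sign_pos hx] at h ⊢
    have hy : 0 < y := sign_eq_one_iff.1 h.symm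
    apply sign_pos
    rcases eq_or_lt_of_le h0 with rfl | h0
    · simpa using hx
    · nlinarith

lemma zero_seg {x y : ℝ} (hx : x ≠ 0) (hy : y ≠ 0) (h : SignType.sign x ≠ SignType.sign y) :
    ∃ l : ℝ, 0 ≤ l ∧ l ≤ 1 ∧ (1 - l) * x + l * y = 0 := by
  rcases lt_or_gt_of_ne hx with h1 | h1 <;> rcases lt_or_gt_of_ne hy with h2 | h2
  · exact absurd (by rw [sign_neg h1, sign_neg h2]) h
  · have hd : 0 < y - x := by linarith
    refine ⟨-x / (y - x), div_nonneg (by linarith) hd.le, ?_, ?_⟩
    · rw [div_le_one hd]; linarith
    · field_simp; ring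
  · have hd : 0 < x - y := by linarith
    refine ⟨x / (x - y), div_nonneg h1.le hd.le, ?_, ?_⟩
    · rw [div_le_one hd]; linarith
    · field_simp; ring
  · exact absurd (by rw [sign_pos h1, sign_pos h2]) h

section step

variable {ι E : Type*} [AddCommGroup E] [Module ℝ E] [Fintype ι] [DecidableEq ι]

/-- The number of sign patterns. -/
noncomputable def num (f : ι → E → ℝ) (s : Finset ι) (U : Set E) : ℕ := (pat f s '' U).ncard

lemma num_const (f : ι → E → ℝ) (s : Finset ι) (U : Set E) (a : ι) (σ : SignType)
    (h : ∀ u ∈ U, SignType.sign (f a u) = σ) : num f (insert a s) U ≤ num f s U := by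
  unfold num
  have h1 : pat f (insert a s) '' U ⊆ (fun v => Function.update v a σ) '' (pat f s '' U) := by
    rintro _ ⟨u, hu, rfl⟩
    refine ⟨pat f s u, ⟨u, hu, rfl⟩, ?_⟩
    rw [pat_insert, h u hu]
  exact (Set.ncard_le_ncard h1 (Set.toFinite _)).trans (Set.ncard_image_le (Set.toFinite _))

/-- The recursion for the number of sign patterns. -/
lemma num_insert (f : ι → E → ℝ) (hf : ∀ i, Aff (f i)) (s : Finset ι) (U : Set E) (hU : Cvx U)
    (a : ι) : num f (insert a s) U ≤ num f s U + 2 * num f s (U ∩ {u | f a u = 0}) := by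
  classical
  unfold num
  obtain ⟨A, hA⟩ : ∃ A, A = pat f s '' U := ⟨_, rfl⟩
  obtain ⟨B, hB⟩ : ∃ B, B = pat f s '' (U ∩ {u | f a u = 0}) := ⟨_, rfl⟩
  let g : (ι → SignType) → SignType := fun v =>
    if v ∈ B then 0 else if h : ∃ u ∈ U, pat f s u = v then SignType.sign (f a h.choose) else 0
  have h1 : pat f (insert a s) '' U ⊆ ((fun v => Function.update v a (g v)) '' A) ∪
      (((fun v => Function.update v a 1) '' B) ∪ ((fun v => Function.update v a (-1)) '' B)) := by
    rintro _ ⟨u, hu, rfl⟩
    rw [pat_insert]
    by_cases hB' : pat f s u ∈ B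
    · rcases h : SignType.sign (f a u) with _ | _ | _
      · left
        refine ⟨pat f s u, by rw [hA]; exact ⟨u, hu, rfl⟩, ?_⟩
        simp only [g, if_pos hB']
        rfl
      · right; right
        exact ⟨pat f s u, hB', rfl⟩
      · right; left
        exact ⟨pat f s u, hB', rfl⟩
    · left
      refine ⟨pat f s u, by rw [hA]; exact ⟨u, hu, rfl⟩, ?_⟩
      have hex : ∃ u' ∈ U, pat f s u' = pat f s u := ⟨u, hu, rfl⟩
      simp only [g, if_neg hB', dif_pos hex]
      obtain ⟨w, hw⟩ : ∃ w, w = hex.choose := ⟨_, rfl⟩
      have hw1 : w ∈ U := by rw [hw]; exact hex.choose_spec.1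
      have hw2 : pat f s w = pat f s u := by rw [hw]; exact hex.choose_spec.2
      rw [← hw]
      have hz1 : f a w ≠ 0 := by
        intro h0
        apply hB'
        rw [hB, ← hw2]
        exact ⟨w, ⟨hw1, h0⟩, rfl⟩
      have hz2 : f a u ≠ 0 := by
        intro h0
        apply hB'
        rw [hB]
        exact ⟨u, ⟨hu, h0⟩, rfl⟩
      congr 1
      by_contra hne
      obtain ⟨l, hl0, hl1, hl⟩ := zero_seg hz1 hz2 hne
      apply hB'
      rw [hB]
      refine ⟨(1 - l) • w + l • u, ⟨hU w hw1 u hu l hl0 hl1, ?_⟩, ?_⟩
      · change f a ((1 - l) • w + l • u) = 0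
        rw [hf a w u l, hl]
      · funext i
        have h2 := congrFun hw2 i
        unfold pat at h2 ⊢
        by_cases hi : i ∈ s
        · rw [if_pos hi, if_pos hi] at h2
          rw [if_pos hi, if_pos hi, hf i w u l, sign_seg h2 hl0 hl1, h2]
        · rw [if_neg hi, if_neg hi]
  have h2 := Set.ncard_le_ncard h1 (Set.toFinite _)
  have h3 := Set.ncard_union_le ((fun v => Function.update v a (g v)) '' A)
    (((fun v : ι → SignType => Function.update v a 1) '' B) ∪
      ((fun v => Function.update v a (-1)) '' B))
  have h4 := Set.ncard_union_le ((fun v : ι → SignType => Function.update v a 1) '' B)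
    ((fun v => Function.update v a (-1)) '' B)
  have h5 := Set.ncard_image_le (f := fun v => Function.update v a (g v)) (Set.toFinite A)
  have h6 := Set.ncard_image_le (f := fun v : ι → SignType => Function.update v a 1)
    (Set.toFinite B)
  have h7 := Set.ncard_image_le (f := fun v : ι → SignType => Function.update v a (-1))
    (Set.toFinite B)
  rw [← hA, ← hB]
  omega

lemma num_subsingleton (f : ι → E → ℝ) (s : Finset ι) (U : Set E) (hU : U.Subsingleton) :
    num f s U ≤ 1 := by
  unfold num
  exact (Set.ncard_le_one_iff_subsingleton).2 (hU.image _)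

lemma num_empty (f : ι → E → ℝ) (U : Set E) : num f ∅ U ≤ 1 := by
  unfold num
  rw [Set.ncard_le_one_iff_subsingleton]
  rintro _ ⟨u, -, rfl⟩ _ ⟨v, -, rfl⟩
  funext i
  simp [pat]

end step

section dims

variable {ι : Type*} [Fintype ι] [DecidableEq ι]

/-- Dimension one. -/
lemma num_line (a b : ι → ℝ) (s : Finset ι) (U : Set ℝ) (hU : Cvx U) :
    num (fun i x => a i * x + b i) s U ≤ 2 * s.card + 1 := by
  have hf : ∀ i, Aff (fun x : ℝ => a i * x + b i) := by
    intro i u v l
    simp only [smul_eq_mul]
    ring
  induction s using Finset.induction_on with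
  | empty => simpa using num_empty _ U
  | insert j s hj ih =>
    rw [card_insert_of_notMem hj]
    by_cases h : a j = 0
    · refine (num_const _ s U j (SignType.sign (b j)) ?_).trans (by omega)
      intro u _
      simp [h]
    · have h1 := num_insert (fun i x => a i * x + b i) hf s U hU j
      have h2 := num_subsingleton (fun i x => a i * x + b i) s (U ∩ {u | a j * u + b j = 0}) (by
        rintro x ⟨-, hx⟩ y ⟨-, hy⟩
        simp only [Set.mem_ofPred_eq] at hx hy
        have : a j * (x - y) = 0 := by linarith
        rcases mul_eq_zero.1 this with h' | h'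
        · exact absurd h' h
        · linarith)
      omega

/-- Dimension two. -/
lemma num_plane (a b c : ι → ℝ) (s : Finset ι) (U : Set (ℝ × ℝ)) (hU : Cvx U) :
    num (fun i (u : ℝ × ℝ) => a i * u.1 + b i * u.2 + c i) s U ≤ 2 * s.card ^ 2 + 1 := by
  have hf : ∀ i, Aff (fun u : ℝ × ℝ => a i * u.1 + b i * u.2 + c i) := by
    intro i u v l
    simp only [Prod.fst_add, Prod.snd_add, Prod.smul_fst, Prod.smul_snd, smul_eq_mul]
    ring
  induction s using Finset.induction_on with
  | empty => simpa using num_empty _ U
  | insert j s hj ih =>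
    rw [card_insert_of_notMem hj]
    by_cases h : a j = 0 ∧ b j = 0
    · refine (num_const _ s U j (SignType.sign (c j)) ?_).trans (ih.trans (by
        have : s.card ^ 2 ≤ (s.card + 1) ^ 2 := Nat.pow_le_pow_left (Nat.le_succ _) 2
        omega))
      intro u _
      simp [h.1, h.2]
    · have h1 := num_insert (fun i (u : ℝ × ℝ) => a i * u.1 + b i * u.2 + c i) hf s U hU j
      -- a point of the line and its direction
      have hD : 0 < a j ^ 2 + b j ^ 2 := by
        rcases not_and_or.1 h with h' | h'
        · positivity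
        · positivity
      let D := a j ^ 2 + b j ^ 2
      let φ : ℝ → ℝ × ℝ := fun x => (-(a j * c j) / D + b j * x, -(b j * c j) / D - a j * x)
      have hφ : ∀ u : ℝ × ℝ, a j * u.1 + b j * u.2 + c j = 0 →
          φ ((b j * u.1 - a j * u.2) / D) = u := by
        intro u hu
        have hD' : D ≠ 0 := hD.ne'
        have e1 : -(a j * c j) / D + b j * ((b j * u.1 - a j * u.2) / D) = u.1 := by
          field_simp
          have : c j = -(a j * u.1 + b j * u.2) := by linarith
          rw [this]
          simp only [D]
          ring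
        have e2 : -(b j * c j) / D - a j * ((b j * u.1 - a j * u.2) / D) = u.2 := by
          field_simp
          have : c j = -(a j * u.1 + b j * u.2) := by linarith
          rw [this]
          simp only [D]
          ring
        exact Prod.ext e1 e2
      have h2 : num (fun i (u : ℝ × ℝ) => a i * u.1 + b i * u.2 + c i) s
          (U ∩ {u | a j * u.1 + b j * u.2 + c j = 0}) ≤
          num (fun i x => (a i * b j - b i * a j) * x +
            (a i * (-(a j * c j) / D) + b i * (-(b j * c j) / D) + c i)) s (φ ⁻¹' U) := by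
        unfold num
        apply Set.ncard_le_ncard _ (Set.toFinite _)
        rintro _ ⟨u, ⟨hu, hu'⟩, rfl⟩
        refine ⟨(b j * u.1 - a j * u.2) / D, ?_, ?_⟩
        · change φ _ ∈ U
          rw [hφ u hu']
          exact hu
        · have h3 := hφ u hu'
          funext i
          unfold pat
          by_cases hi : i ∈ s
          · rw [if_pos hi, if_pos hi]
            congr 1
            have e1 := congrArg Prod.fst h3
            have e2 := congrArg Prod.snd h3
            simp only [φ] at e1 e2
            linear_combination a i * e1 + b i * e2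
          · rw [if_neg hi, if_neg hi]
      have h3 := num_line (fun i => a i * b j - b i * a j)
        (fun i => a i * (-(a j * c j) / D) + b i * (-(b j * c j) / D) + c i) s (φ ⁻¹' U) (by
          intro x hx y hy l hl0 hl1
          change φ _ ∈ U
          have : φ ((1 - l) • x + l • y) = (1 - l) • φ x + l • φ y := by
            apply Prod.ext
            · simp only [φ, Prod.fst_add, Prod.smul_fst, smul_eq_mul]
              ring
            · simp only [φ, Prod.snd_add, Prod.smul_snd, smul_eq_mul]
              ring
          rw [this]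
          exact hU _ hx _ hy l hl0 hl1)
      have h4 : num (fun i (u : ℝ × ℝ) => a i * u.1 + b i * u.2 + c i) s
          (U ∩ {u | a j * u.1 + b j * u.2 + c j = 0}) ≤ 2 * s.card + 1 := h2.trans h3
      have h5 : num (fun i (u : ℝ × ℝ) => a i * u.1 + b i * u.2 + c i) (insert j s) U ≤
          (2 * s.card ^ 2 + 1) + 2 * (2 * s.card + 1) :=
        h1.trans (Nat.add_le_add ih (Nat.mul_le_mul_left 2 h4))
      refine h5.trans (le_of_eq ?_)
      ring

end dims

end Pool.Agent.Lib.MP_cd3201_co.Strong
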