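import Mathlib

/-!
# Thresholds and coincidences
-/

set_option autoImplicit false

open Finset

namespace Pool.Agent.Lib.MP_cd3201_co.Strong

/-- A finite set of reals is cut by at most `t` of its elements into parts of at most
`|V| / t + 1` elements. -/
theorem thresh (V : Finset ℝ) {t : ℕ} (ht : 1 ≤ t) : ∃ Θ ⊆ V, Θ.card ≤ t ∧ ∀ S ⊆ V,
    (∀ v ∈ S, ∀ v' ∈ S, (Θ.filter (· < v)).card = (Θ.filter (· < v')).card) →
      S.card ≤ V.card / t + 1 := by
  classical
  obtain ⟨W, hW⟩ : ∃ W, W = V.card / t + 1 := ⟨_, rfl⟩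
  have hW0 : 0 < W := by rw [hW]; exact Nat.succ_pos _
  let e := V.orderEmbOfFin rfl
  have he : ∀ i, e i ∈ V := fun i => V.orderEmbOfFin_mem rfl i
  refine ⟨(univ.filter fun i : Fin V.card => W ∣ i.1 + 1).image e, ?_, ?_, ?_⟩
  · intro v hv
    obtain ⟨i, -, rfl⟩ := mem_image.1 hv
    exact he i
  · refine card_image_le.trans ?_
    have h1 : (univ.filter fun i : Fin V.card => W ∣ i.1 + 1).card =
        ((range V.card).filter fun i => W ∣ i + 1).card := by
      rw [← card_map Fin.valEmbedding]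
      congr 1
      ext i
      simp only [mem_map, mem_filter, mem_univ, true_and, Fin.valEmbedding_apply, mem_range]
      constructor
      · rintro ⟨j, hj, rfl⟩
        exact ⟨j.2, hj⟩
      · rintro ⟨h, h'⟩
        exact ⟨⟨i, h⟩, h', rfl⟩
    rw [h1, Nat.card_multiples]
    have h2 : V.card < W * t := by
      rw [hW]
      exact Nat.lt_mul_of_div_lt (Nat.lt_succ_self _) ht
    exact (Nat.div_lt_of_lt_mul h2).le
  · intro S hS h
    rw [← hW]
    by_contra hlt
    push Not at hlt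
    -- the indices of the elements of `S`
    obtain ⟨T, hT⟩ : ∃ T : Finset (Fin V.card), T = univ.filter fun i => e i ∈ S := ⟨_, rfl⟩
    have hTS : T.image e = S := by
      ext v
      rw [mem_image]
      constructor
      · rintro ⟨i, hi, rfl⟩
        rw [hT, mem_filter] at hi
        exact hi.2
      · intro hv
        have : v ∈ Set.range e := by
          rw [Finset.range_orderEmbOfFin]
          exact hS hv
        obtain ⟨i, rfl⟩ := this
        exact ⟨i, by rw [hT, mem_filter]; exact ⟨mem_univ _, hv⟩, rfl⟩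
    have hTc : T.card = S.card := by
      rw [← hTS, card_image_of_injective _ e.injective]
    have hne : T.Nonempty := by
      rw [← card_pos]
      omega
    obtain ⟨i0, hi0⟩ : ∃ i0, i0 = T.min' hne := ⟨_, rfl⟩
    obtain ⟨i1, hi1⟩ : ∃ i1, i1 = T.max' hne := ⟨_, rfl⟩
    have h0T : i0 ∈ T := by rw [hi0]; exact T.min'_mem hne
    have h1T : i1 ∈ T := by rw [hi1]; exact T.max'_mem hne
    have hsub : T ⊆ Icc i0 i1 := by
      intro i hi
      rw [mem_Icc, hi0, hi1]
      exact ⟨T.min'_le i hi, T.le_max' i hi⟩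
    have hc := card_le_card hsub
    rw [Fin.card_Icc] at hc
    have hdiff : i0.1 + W ≤ i1.1 := by omega
    -- a multiple of `W`
    obtain ⟨j, hj⟩ : ∃ j, j = W * (i0.1 / W + 1) - 1 := ⟨_, rfl⟩
    have hdm := Nat.div_add_mod i0.1 W
    have hml := Nat.mod_lt i0.1 hW0
    have hexp : W * (i0.1 / W + 1) = W * (i0.1 / W) + W := by ring
    rw [hexp] at hj
    obtain ⟨Z, hZ⟩ : ∃ Z, Z = W * (i0.1 / W) := ⟨_, rfl⟩
    obtain ⟨Y, hY⟩ : ∃ Y, Y = i0.1 % W := ⟨_, rfl⟩
    rw [← hZ] at hj hdm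
    rw [← hY] at hdm hml
    have hj1 : i0.1 ≤ j := by omega
    have hj2 : j < i1.1 := by omega
    have hj3 : j + 1 = W * (i0.1 / W + 1) := by
      rw [hexp, ← hZ]
      omega
    have hjV : j < V.card := hj2.trans i1.2
    have h0S : e i0 ∈ S := by rw [hT, mem_filter] at h0T; exact h0T.2
    have h1S : e i1 ∈ S := by rw [hT, mem_filter] at h1T; exact h1T.2
    have hle : e i0 ≤ e ⟨j, hjV⟩ := e.monotone (Fin.le_def.2 hj1)
    have hlt' : e ⟨j, hjV⟩ < e i1 := e.strictMono (Fin.lt_def.2 hj2)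
    obtain ⟨Θ, hΘ⟩ : ∃ Θ, Θ = (univ.filter fun i : Fin V.card => W ∣ i.1 + 1).image e := ⟨_, rfl⟩
    have hjΘ : e ⟨j, hjV⟩ ∈ Θ := by
      rw [hΘ, mem_image]
      refine ⟨⟨j, hjV⟩, ?_, rfl⟩
      rw [mem_filter]
      exact ⟨mem_univ _, ⟨_, hj3⟩⟩
    have heq := h _ h0S _ h1S
    rw [← hΘ] at heq
    have hss : Θ.filter (· < e i0) ⊂ Θ.filter (· < e i1) := by
      rw [ssubset_iff_of_subset]
      · refine ⟨e ⟨j, hjV⟩, ?_, ?_⟩
        · rw [mem_filter]
          exact ⟨hjΘ, hlt'⟩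
        · rw [mem_filter]
          rintro ⟨-, h'⟩
          exact absurd h' (not_lt.2 hle)
      · intro τ hτ
        rw [mem_filter] at hτ ⊢
        exact ⟨hτ.1, hτ.2.trans_le (hle.trans hlt'.le)⟩
    exact absurd heq (card_lt_card hss).ne

/-- Coincidences: `2 |S| ≤ 2 |f(S)| + #{(a, a') : a ≠ a', f a = f a'}`. -/
theorem coinc {α β : Type*} [DecidableEq α] [DecidableEq β] (S : Finset α) (f : α → β) :
    2 * S.card ≤ 2 * (S.image f).card + (S.offDiag.filter fun a => f a.1 = f a.2).card := by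
  have h1 : (S.offDiag.filter fun a => f a.1 = f a.2).card =
      ∑ c ∈ S.image f, (S.filter fun a => f a = c).offDiag.card := by
    rw [← card_biUnion]
    · congr 1
      ext a
      simp only [mem_filter, mem_offDiag, mem_biUnion, mem_image]
      constructor
      · rintro ⟨⟨h1, h2, h3⟩, h4⟩
        exact ⟨f a.1, ⟨a.1, h1, rfl⟩, ⟨h1, rfl⟩, ⟨h2, h4.symm⟩, h3⟩
      · rintro ⟨c, -, ⟨h1, h2⟩, ⟨h3, h4⟩, h5⟩
        exact ⟨⟨h1, h3, h5⟩, h2.trans h4.symm⟩
    · intro c _ c' _ hcc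
      rw [Function.onFun, disjoint_left]
      intro a ha ha'
      rw [mem_offDiag, mem_filter, mem_filter] at ha ha'
      exact hcc (ha.1.2.symm.trans ha'.1.2)
  have h2 : S.card = ∑ c ∈ S.image f, (S.filter fun a => f a = c).card :=
    card_eq_sum_card_image f S
  rw [h1]
  have h3 : 2 * ∑ c ∈ S.image f, (S.filter fun a => f a = c).card ≤
      ∑ c ∈ S.image f, (2 + (S.filter fun a => f a = c).offDiag.card) := by
    rw [mul_sum]
    apply sum_le_sum
    intro c _
    rw [offDiag_card]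
    obtain ⟨m, hm⟩ : ∃ m, m = (S.filter fun a => f a = c).card := ⟨_, rfl⟩
    rw [← hm]
    rcases m with _ | _ | m
    · simp
    · simp
    · have : (m + 1 + 1) * (m + 1 + 1) - (m + 1 + 1) = (m + 1 + 1) * (m + 1) := by
        rw [← Nat.mul_sub_one]
        simp
      rw [this]
      nlinarith
  rw [← h2, sum_add_distrib, sum_const, smul_eq_mul] at h3
  omega

end Pool.Agent.Lib.MP_cd3201_co.Strong
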